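import Pool.Agent.Lib.MP_a1ec0a_al.H.Cox1
import Pool.Agent.Lib.MP_a1ec0a_al.H.ArtDefs

/-! Exchange condition, Matsumoto's theorem, parabolic subgroups. -/

set_option linter.unusedSectionVars false

namespace Pool.Agent.H51

open CoxeterSystem

section alt
variable {B : Type*}

@[simp] theorem length_alt (a b : B) (n : ℕ) : (alt a b n).length = n := by
  induction n generalizing a b with
  | zero => rfl
  | succ n ih => simp [alt, ih]

theorem alt_eq_reverse (a b : B) (n : ℕ) : alt a b n = (alternatingWord b a n).reverse := by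
  induction n generalizing a b with
  | zero => rfl
  | succ n ih => simp [alt, alternatingWord, ih]

theorem mem_alt {a b c : B} {n : ℕ} (h : c ∈ alt a b n) : c = a ∨ c = b := by
  induction n generalizing a b with
  | zero => simp [alt] at h
  | succ n ih =>
    simp only [alt, List.mem_cons] at h
    rcases h with h | h
    · exact Or.inl h
    · exact (ih h).symm

theorem alt_succ' (a b : B) (n : ℕ) : alt a b (n + 1) = alt a b n ++ [if Even n then a else b] := by
  rw [alt_eq_reverse, alternatingWord_succ', alt_eq_reverse]; simp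

theorem alt_add (a b : B) (n k : ℕ) :
    alt a b (n + k) = alt a b n ++ (if Even n then alt a b k else alt b a k) := by
  induction n generalizing a b with
  | zero => simp [alt]
  | succ n ih =>
    rw [show n + 1 + k = (n + k) + 1 by ring, alt, ih, alt]
    by_cases h : Even n <;> simp [h, Nat.even_add_one]

theorem left_mem_alt (a b : B) {n : ℕ} (hn : 1 ≤ n) : a ∈ alt a b n := by
  obtain ⟨n, rfl⟩ : ∃ k, n = k + 1 := ⟨n - 1, by omega⟩
  simp [alt]

theorem right_mem_alt (a b : B) {n : ℕ} (hn : 2 ≤ n) : b ∈ alt a b n := by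
  obtain ⟨n, rfl⟩ : ∃ k, n = k + 2 := ⟨n - 2, by omega⟩
  simp [alt]

theorem alt_map {C : Type*} (f : B → C) (a b : B) (n : ℕ) :
    (alt a b n).map f = alt (f a) (f b) n := by
  induction n generalizing a b with
  | zero => rfl
  | succ n ih => simp [alt, ih]

theorem reverse_alt (a b : B) (n : ℕ) :
    (alt a b n).reverse = if Even n then alt b a n else alt a b n := by
  induction n generalizing a b with
  | zero => rfl
  | succ n ih =>
    conv_lhs => rw [alt, List.reverse_cons, ih]
    by_cases h : Even n
    · simp [h, Nat.even_add_one, alt_succ']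
    · simp [h, Nat.even_add_one, alt_succ']

end alt

section braid
variable {B : Type*} (M : CoxeterMatrix B)

/-- one braid move -/
inductive BStep : List B → List B → Prop
  | mk (x y : List B) (i j : B) : BStep (x ++ alt i j (M i j) ++ y) (x ++ alt j i (M i j) ++ y)

/-- braid equivalence -/
def BE : List B → List B → Prop := Relation.ReflTransGen (BStep M)

variable {M}

theorem BStep.symm {l l' : List B} (h : BStep M l l') : BStep M l' l := by
  obtain ⟨x, y, i, j⟩ := h
  have := BStep.mk (M := M) x y j i
  rwa [M.symmetric j i] at this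

theorem BE.refl (l : List B) : BE M l l := Relation.ReflTransGen.refl
theorem BE.trans {a b c : List B} (h : BE M a b) (h' : BE M b c) : BE M a c :=
  Relation.ReflTransGen.trans h h'
theorem BE.symm {a b : List B} (h : BE M a b) : BE M b a := by
  induction h with
  | refl => exact BE.refl _
  | tail _ h2 ih => exact BE.trans (Relation.ReflTransGen.single h2.symm) ih

theorem BE.ctx {a b : List B} (h : BE M a b) (x y : List B) : BE M (x ++ a ++ y) (x ++ b ++ y) := by
  induction h with
  | refl => exact BE.refl _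
  | tail _ h2 ih =>
    refine ih.tail ?_
    obtain ⟨x', y', i, j⟩ := h2
    have := BStep.mk (M := M) (x ++ x') (y' ++ y) i j
    simpa using this

theorem BE.append {a b c d : List B} (h : BE M a b) (h' : BE M c d) : BE M (a ++ c) (b ++ d) := by
  have h1 := h.ctx [] c
  have h2 := h'.ctx b []
  simp only [List.nil_append, List.append_nil] at h1 h2
  exact h1.trans h2

theorem BE.cons {a b : List B} (h : BE M a b) (s : B) : BE M (s :: a) (s :: b) :=
  (BE.refl [s]).append h

theorem BE.braid (i j : B) : BE M (alt i j (M i j)) (alt j i (M i j)) := by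
  have := BStep.mk (M := M) [] [] i j
  simp only [List.nil_append, List.append_nil] at this
  exact Relation.ReflTransGen.single this

theorem BE.inv {a b : List B} (h : BE M a b) {P : List B → Prop}
    (hP : ∀ x y i j, P (x ++ alt i j (M i j) ++ y) → P (x ++ alt j i (M i j) ++ y)) (ha : P a) :
    P b := by
  induction h with
  | refl => exact ha
  | tail _ h2 ih => obtain ⟨x, y, i, j⟩ := h2; exact hP _ _ _ _ ih

theorem BE.length_eq {a b : List B} (h : BE M a b) : a.length = b.length :=
  (h.inv (P := fun l => l.length = a.length) (by intro x y i j; simp) rfl).symm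

theorem mem_alt_braid {i j c : B} (h : c ∈ alt i j (M i j)) : c ∈ alt j i (M i j) := by
  by_cases hij : i = j
  · subst hij; exact h
  by_cases h0 : M i j = 0
  · simp [h0, alt] at h
  have h2 := two_le_M M hij h0
  rcases mem_alt h with rfl | rfl
  · exact right_mem_alt _ _ h2
  · exact left_mem_alt _ _ (by omega)

theorem BE.mem {a b : List B} (h : BE M a b) {c : B} (hc : c ∈ a) : c ∈ b := by
  refine h.inv (P := fun l => c ∈ l) ?_ hc
  intro x y i j hc
  simp only [List.mem_append] at hc ⊢
  rcases hc with (hc | hc) | hc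
  · exact Or.inl (Or.inl hc)
  · exact Or.inl (Or.inr (mem_alt_braid hc))
  · exact Or.inr hc

theorem BE.reverse {a b : List B} (h : BE M a b) : BE M a.reverse b.reverse := by
  induction h with
  | refl => exact BE.refl _
  | tail _ h2 ih =>
    refine ih.tail ?_
    obtain ⟨x, y, i, j⟩ := h2
    simp only [List.reverse_append, reverse_alt, ← List.append_assoc]
    split_ifs
    · have := BStep.mk (M := M) y.reverse x.reverse j i
      rwa [M.symmetric j i] at this
    · exact BStep.mk _ _ _ _

/-- a map satisfying the braid relations on `T` is constant on braid classes of words over `T` -/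
theorem BE.prod_eq {N : Type*} [Monoid N] {T : Set B} {φ : B → N}
    (hφ : ∀ i ∈ T, ∀ j ∈ T, ((alt i j (M i j)).map φ).prod = ((alt j i (M i j)).map φ).prod)
    {a b : List B} (h : BE M a b) (ha : ∀ c ∈ a, c ∈ T) : (a.map φ).prod = (b.map φ).prod := by
  have := h.inv (P := fun l => (∀ c ∈ l, c ∈ T) ∧ (a.map φ).prod = (l.map φ).prod) ?_ ⟨ha, rfl⟩
  · exact this.2
  rintro x y i j ⟨h1, h2⟩
  constructor
  · intro c hc
    apply h1
    simp only [List.mem_append] at hc ⊢
    rcases hc with (hc | hc) | hc
    · exact Or.inl (Or.inl hc)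
    · refine Or.inl (Or.inr ?_)
      rw [M.symmetric] at hc ⊢
      exact mem_alt_braid hc
    · exact Or.inr hc
  · rw [h2]
    by_cases hij : i = j
    · subst hij; rfl
    by_cases h0 : M i j = 0
    · simp [h0, alt]
    have h2 := two_le_M M hij h0
    have hi : i ∈ T := h1 i (by simp [left_mem_alt i j (n := M i j) (by omega)])
    have hj : j ∈ T := h1 j (by simp [right_mem_alt i j h2])
    simp only [List.map_append, List.prod_append, hφ i hi j hj]

end braid

variable {B : Type*} {M : CoxeterMatrix B} {W : Type*} [Group W] (cs : CoxeterSystem M W)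

theorem wordProd_braid (i j : B) :
    cs.wordProd (alt i j (M i j)) = cs.wordProd (alt j i (M i j)) := by
  have hb := cs.wordProd_braidWord_eq i j
  simp only [braidWord] at hb
  rw [alt_eq_reverse, alt_eq_reverse, cs.wordProd_reverse, cs.wordProd_reverse, hb,
    M.symmetric j i]

theorem BE.wordProd_eq {a b : List B} (h : BE M a b) : cs.wordProd a = cs.wordProd b :=
  h.prod_eq (T := Set.univ) (φ := cs.simple) (fun i _ j _ => wordProd_braid cs i j)
    (fun _ _ => trivial)

theorem BE.isReduced {a b : List B} (h : BE M a b) (ha : cs.IsReduced a) : cs.IsReduced b := by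
  unfold CoxeterSystem.IsReduced at *
  rw [← h.wordProd_eq cs, ← h.length_eq, ha]

variable [Fintype B] [DecidableEq B]

/-- the bilinear form -/
noncomputable def BB (M : CoxeterMatrix B) (u v : B → ℝ) : ℝ := ∑ i, u i * bf M i v

theorem BB_symm (u v : B → ℝ) : BB M u v = BB M v u := by
  simp only [BB, bf, LinearMap.coe_mk, AddHom.coe_mk, Finset.mul_sum]
  rw [Finset.sum_comm]
  refine Finset.sum_congr rfl fun i _ => Finset.sum_congr rfl fun j _ => ?_
  rw [kc_symm M i j]; ring

theorem BB_ee (i : B) (v : B → ℝ) : BB M (ee i) v = bf M i v := by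
  simp [BB, ee, Pi.single_apply]

theorem BB_sub_smul (u v x : B → ℝ) (c : ℝ) : BB M u (v - c • x) = BB M u v - c * BB M u x := by
  simp [BB, mul_sub, Finset.sum_sub_distrib, Finset.mul_sum, mul_left_comm]

theorem BB_smul (u v : B → ℝ) (c : ℝ) : BB M u (c • v) = c * BB M u v := by
  simp [BB, Finset.mul_sum, mul_left_comm]

theorem BB_sref (i : B) (u v : B → ℝ) : BB M (sref M i u) v = BB M u (sref M i v) := by
  rw [BB_symm, sref_apply, sref_apply, BB_sub_smul, BB_sub_smul, BB_symm v (ee i),
    BB_symm u (ee i), BB_ee, BB_ee, BB_symm v u]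
  ring

theorem BB_rho (w : W) (u v : B → ℝ) : BB M (rho cs w u) v = BB M u (rho cs w⁻¹ v) := by
  induction w using cs.simple_induction_left generalizing v with
  | one => simp
  | mul_simple_left w i ih =>
    rw [map_mul, Module.End.mul_apply, rho_simple, BB_sref, ih, mul_inv_rev, map_mul,
      cs.inv_simple, Module.End.mul_apply, rho_simple]

theorem conj_eq_of_root {u : W} {s x : B} {c : ℝ} (h : rho cs u (ee s) = c • ee x) :
    u * cs.simple s * u⁻¹ = cs.simple x := by
  apply rho_injective cs
  have hinv : ∀ v, rho cs u (rho cs u⁻¹ v) = v := by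
    intro v; rw [← Module.End.mul_apply, ← map_mul]; simp
  have hinv' : ∀ v, rho cs u⁻¹ (rho cs u v) = v := by
    intro v; rw [← Module.End.mul_apply, ← map_mul]; simp
  have hc : c * c = 1 := by
    have h1 := BB_rho cs u (ee s) (rho cs u (ee s))
    rw [hinv', h, BB_smul, BB_symm, BB_smul, BB_ee, BB_ee, bf_ee, bf_ee, kc_self, kc_self] at h1
    linarith
  refine LinearMap.ext fun v => ?_
  rw [map_mul, map_mul, Module.End.mul_apply, Module.End.mul_apply, rho_simple, rho_simple,
    sref_apply, map_sub, map_smul, hinv, h, ← BB_ee, ← BB_rho, h, BB_symm, BB_smul, BB_symm, BB_ee,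
    sref_apply, smul_smul]
  congr 2
  linear_combination (2 * bf M x v) * hc

/-- Strong form of the exchange condition, on the right. -/
theorem exchange_right {l : List B} {s : B} (h : cs.IsRightDescent (cs.wordProd l) s) :
    ∃ l1 x l2, l = l1 ++ x :: l2 ∧
      cs.simple x * cs.wordProd l2 = cs.wordProd l2 * cs.simple s := by
  induction l with
  | nil => exact absurd h (by simpa using cs.not_isRightDescent_one s)
  | cons x l ih =>
    by_cases hl : cs.IsRightDescent (cs.wordProd l) s
    · obtain ⟨l1, y, l2, h1, h2⟩ := ih hl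
      exact ⟨x :: l1, y, l2, by simp [h1], h2⟩
    · refine ⟨[], x, l, rfl, ?_⟩
      have h1 := rho_nonneg cs hl
      have h2 := rho_nonpos cs h
      rw [cs.wordProd_cons, map_mul, Module.End.mul_apply, rho_simple, sref_apply] at h2
      have h3 : rho cs (cs.wordProd l) (ee s) = (rho cs (cs.wordProd l) (ee s) x) • ee x := by
        funext j
        by_cases hj : j = x
        · subst hj; simp [ee]
        · have a1 := h1 j
          have a2 := h2 j
          simp only [ee, Pi.sub_apply, Pi.smul_apply, Pi.single_eq_of_ne hj, smul_eq_mul,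
            mul_zero, sub_zero, Pi.zero_apply] at a1 a2 ⊢
          linarith
      have := conj_eq_of_root cs h3
      rw [← this]; group

theorem exchange_left {l : List B} {s : B} (h : cs.IsLeftDescent (cs.wordProd l) s) :
    ∃ l1 x l2, l = l1 ++ x :: l2 ∧
      cs.simple s * cs.wordProd l1 = cs.wordProd l1 * cs.simple x := by
  rw [← cs.isRightDescent_inv_iff, ← cs.wordProd_reverse] at h
  obtain ⟨l1, x, l2, h1, h2⟩ := exchange_right cs h
  refine ⟨l2.reverse, x, l1.reverse, by rw [← List.reverse_reverse l, h1]; simp, ?_⟩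
  rw [cs.wordProd_reverse]
  have := congrArg (·⁻¹) h2
  simp only [mul_inv_rev, cs.inv_simple] at this
  exact this.symm

theorem both_right {w : W} {i j : B} (hij : i ≠ j) (hi : cs.IsRightDescent w i)
    (hj : cs.IsRightDescent w j) : M i j ≠ 0 ∧ ∃ v, w = v * cs.wordProd (alternatingWord i j (M i j))
      ∧ cs.length w = cs.length v + M i j ∧ ¬ cs.IsRightDescent v i ∧ ¬ cs.IsRightDescent v j := by
  obtain ⟨n, v, hn, h1, h2, h3, h4⟩ := dihedral_decomp cs i hj
  have hred : cs.IsReduced (alternatingWord i j n) :=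
    red_left cs (v := v) (by rw [← h1, h2, length_alternatingWord])
  have hle := le_M_of_red cs hred
  have hlt : ¬ (M i j = 0 ∨ n < M i j) := by
    intro hlt
    have := rho_alt_nonneg cs hij hlt (rho_nonneg cs h3) (rho_nonneg cs h4)
    rw [← h1] at this
    exact (not_descent_iff cs).2 this hi
  have : n = M i j := by omega
  subst this
  exact ⟨by omega, v, h1, h2, h3, h4⟩

theorem both_left {w : W} {i j : B} (hij : i ≠ j) (hi : cs.IsLeftDescent w i)
    (hj : cs.IsLeftDescent w j) : M i j ≠ 0 ∧ ∃ v, w = cs.wordProd (alt i j (M i j)) * v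
      ∧ cs.length w = M i j + cs.length v := by
  obtain ⟨h0, v, h1, h2, -, -⟩ := both_right cs hij.symm (cs.isRightDescent_inv_iff.2 hj)
    (cs.isRightDescent_inv_iff.2 hi)
  rw [M.symmetric j i] at h0 h1 h2
  refine ⟨h0, v⁻¹, ?_, by rw [cs.length_inv] at *; omega⟩
  rw [alt_eq_reverse, cs.wordProd_reverse, ← mul_inv_rev, ← h1, inv_inv]

omit [Fintype B] [DecidableEq B] in
theorem red_cons {s : B} {l : List B} (h : cs.IsReduced (s :: l)) :
    cs.IsReduced l ∧ cs.IsLeftDescent (cs.wordProd (s :: l)) s := by
  have h1 : cs.IsReduced l := by simpa using h.drop 1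
  refine ⟨h1, ?_⟩
  unfold IsLeftDescent
  rw [h.eq, cs.wordProd_cons, cs.simple_mul_simple_cancel_left, h1.eq]; simp

omit [Fintype B] [DecidableEq B] in
theorem red_append {l l' : List B}
    (h : cs.length (cs.wordProd l * cs.wordProd l') = l.length + l'.length) :
    cs.IsReduced (l ++ l') := by
  unfold CoxeterSystem.IsReduced; rw [cs.wordProd_append, h, List.length_append]

/-- Matsumoto's theorem -/
theorem matsumoto {l l' : List B} (h : cs.IsReduced l) (h' : cs.IsReduced l')
    (e : cs.wordProd l = cs.wordProd l') : BE M l l' := by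
  induction hn : l.length using Nat.strong_induction_on generalizing l l' with
  | _ n ih =>
    have hlen : l.length = l'.length := by rw [← h.eq, ← h'.eq, e]
    match l, l', hlen with
    | [], [], _ => exact BE.refl _
    | s :: l, t :: l', hlen =>
      obtain ⟨h1, h2⟩ := red_cons cs h
      obtain ⟨h1', h2'⟩ := red_cons cs h'
      simp only [List.length_cons] at hn hlen
      by_cases hst : s = t
      · subst hst
        rw [cs.wordProd_cons, cs.wordProd_cons, mul_right_inj] at e
        exact (ih _ (by omega) h1 h1' e rfl).cons s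
      rw [← e] at h2'
      obtain ⟨h0, v, h3, h4⟩ := both_left cs hst h2 h2'
      obtain ⟨ν, hν, rfl⟩ := cs.exists_isReduced v
      obtain ⟨m, hm⟩ : ∃ m, M s t = m + 1 := ⟨M s t - 1, by omega⟩
      have r1 : cs.IsReduced (alt s t (M s t) ++ ν) :=
        red_append cs (by rw [← h3, h4, hν.eq]; simp)
      have b1 : BE M (alt s t (M s t) ++ ν) (alt t s (M s t) ++ ν) :=
        (BE.braid s t).append (BE.refl _)
      have r2 := b1.isReduced cs r1
      have e2 := b1.wordProd_eq cs
      rw [← cs.wordProd_append] at h3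
      rw [hm] at r1 r2 b1 e2 h3
      simp only [alt, List.cons_append] at r1 r2 b1 e2 h3
      have e1 : cs.wordProd l = cs.wordProd (alt t s m ++ ν) := by
        rw [cs.wordProd_cons, cs.wordProd_cons] at h3
        exact mul_left_cancel h3
      have e3 : cs.wordProd l' = cs.wordProd (alt s t m ++ ν) := by
        rw [e, e2, cs.wordProd_cons, cs.wordProd_cons] at h3
        exact mul_left_cancel h3
      have c1 := ih _ (by omega) h1 (red_cons cs r1).1 e1 rfl
      have c2 := ih _ (by omega) h1' (red_cons cs r2).1 e3 rfl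
      exact ((c1.cons s).trans b1).trans (c2.cons t).symm

/-- standard parabolic subgroup -/
def par (T : Set B) : Subgroup W := Subgroup.closure (cs.simple '' T)

omit [Fintype B] [DecidableEq B] in
theorem simple_mem_par {T : Set B} {i : B} (hi : i ∈ T) : cs.simple i ∈ par cs T :=
  Subgroup.subset_closure ⟨i, hi, rfl⟩

omit [Fintype B] [DecidableEq B] in
theorem wordProd_mem_par {T : Set B} {l : List B} (hl : ∀ c ∈ l, c ∈ T) :
    cs.wordProd l ∈ par cs T := by
  induction l with
  | nil => simp
  | cons a l ih =>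
    rw [cs.wordProd_cons]
    exact mul_mem (simple_mem_par cs (hl a (by simp))) (ih fun c hc => hl c (by simp [hc]))

omit [Fintype B] [DecidableEq B] in
theorem par_mono {T T' : Set B} (h : T ⊆ T') : par cs T ≤ par cs T' :=
  Subgroup.closure_mono (Set.image_mono h)

omit [Fintype B] [DecidableEq B] in
theorem par_induction {T : Set B} {P : W → Prop} {w : W} (hw : w ∈ par cs T) (h1 : P 1)
    (hm : ∀ w ∈ par cs T, ∀ i ∈ T, P w → P (w * cs.simple i)) : P w := by
  induction hw using Subgroup.closure_induction_right with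
  | one => exact h1
  | mul_right x hx y hy ih => obtain ⟨i, hi, rfl⟩ := hy; exact hm x hx i hi ih
  | mul_inv_cancel x hx y hy ih =>
    obtain ⟨i, hi, rfl⟩ := hy
    rw [cs.inv_simple]; exact hm x hx i hi ih

theorem exists_red_par {T : Set B} {w : W} (hw : w ∈ par cs T) :
    ∃ l, (∀ c ∈ l, c ∈ T) ∧ cs.IsReduced l ∧ w = cs.wordProd l := by
  refine par_induction cs (P := fun w => ∃ l, (∀ c ∈ l, c ∈ T) ∧ cs.IsReduced l ∧ w = cs.wordProd l)
    hw ⟨[], by simp, by simp [CoxeterSystem.IsReduced], by simp⟩ ?_
  rintro w - i hi ⟨l, h1, h2, rfl⟩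
  by_cases hd : cs.IsRightDescent (cs.wordProd l) i
  · obtain ⟨l1, x, l2, rfl, h4⟩ := exchange_right cs hd
    have e : cs.wordProd (l1 ++ x :: l2) * cs.simple i = cs.wordProd (l1 ++ l2) := by
      rw [cs.wordProd_append, cs.wordProd_cons, h4, cs.wordProd_append]
      simp [mul_assoc]
    refine ⟨l1 ++ l2, fun c hc => h1 c (by simp at hc ⊢; tauto), ?_, e⟩
    have := cs.isRightDescent_iff.1 hd
    unfold CoxeterSystem.IsReduced
    rw [← e]
    rw [h2.eq] at this
    simp at this ⊢; omega
  · refine ⟨l ++ [i], fun c hc => ?_, ?_, by simp [cs.wordProd_append]⟩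
    · simp at hc; rcases hc with hc | rfl
      · exact h1 c hc
      · exact hi
    · have := cs.not_isRightDescent_iff.1 hd
      exact red_append cs (by simp [this, h2.eq])

theorem red_mem_of_par {T : Set B} {l : List B} (hl : cs.IsReduced l)
    (hw : cs.wordProd l ∈ par cs T) : ∀ c ∈ l, c ∈ T := by
  obtain ⟨l', h1, h2, h3⟩ := exists_red_par cs hw
  exact fun c hc => h1 c ((matsumoto cs hl h2 h3).mem hc)

theorem mem_of_simple_mem_par {T : Set B} {i : B} (h : cs.simple i ∈ par cs T) : i ∈ T :=
  red_mem_of_par cs (l := [i]) (by simp [CoxeterSystem.IsReduced]) (by simpa using h) i (by simp)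

theorem rdesc_mem_par {T : Set B} {w : W} (hw : w ∈ par cs T) {i : B}
    (hi : cs.IsRightDescent w i) : i ∈ T := by
  obtain ⟨l, h1, h2, rfl⟩ := exists_red_par cs hw
  obtain ⟨l1, x, l2, rfl, h4⟩ := exchange_right cs hi
  apply mem_of_simple_mem_par cs
  have a1 : cs.wordProd l2 ∈ par cs T := wordProd_mem_par cs fun c hc => h1 c (by simp [hc])
  have a2 : cs.simple x ∈ par cs T := simple_mem_par cs (h1 x (by simp))
  have : cs.simple i = (cs.wordProd l2)⁻¹ * (cs.simple x * cs.wordProd l2) := by rw [h4]; group
  rw [this]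
  exact mul_mem (inv_mem a1) (mul_mem a2 a1)

theorem ldesc_mem_par {T : Set B} {w : W} (hw : w ∈ par cs T) {i : B}
    (hi : cs.IsLeftDescent w i) : i ∈ T :=
  rdesc_mem_par cs (inv_mem hw) (cs.isRightDescent_inv_iff.2 hi)

theorem rho_supp {T : Set B} {w : W} (hw : w ∈ par cs T) (v : B → ℝ) (j : B) (hj : j ∉ T) :
    rho cs w v j = v j := by
  obtain ⟨l, h1, -, rfl⟩ := exists_red_par cs hw
  clear hw
  induction l with
  | nil => simp
  | cons a l ih =>
    have : j ≠ a := fun e => hj (e ▸ h1 a (by simp))
    rw [cs.wordProd_cons, map_mul, Module.End.mul_apply, rho_simple, sref_apply]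
    simp [ee, this, ih fun c hc => h1 c (by simp [hc])]

theorem rho_eq_sum (u : W) (v : B → ℝ) : rho cs u v = ∑ j, v j • rho cs u (ee j) := by
  conv_lhs => rw [pi_eq_sum_univ' v]
  simp [map_sum, ee]

theorem rho_nonneg_supp {T : Set B} {u : W} (hu : ∀ t ∈ T, ¬ cs.IsRightDescent u t)
    {v : B → ℝ} (hv : 0 ≤ v) (hs : ∀ j, j ∉ T → v j = 0) : 0 ≤ rho cs u v := by
  rw [rho_eq_sum]
  refine Finset.sum_nonneg fun j _ => ?_
  by_cases hj : j ∈ T
  · exact smul_nonneg (hv j) (rho_nonneg cs (hu j hj))
  · simp [hs j hj]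

theorem rho_nonpos_supp {T : Set B} {u : W} (hu : ∀ t ∈ T, cs.IsRightDescent u t)
    {v : B → ℝ} (hv : 0 ≤ v) (hs : ∀ j, j ∉ T → v j = 0) : rho cs u v ≤ 0 := by
  rw [rho_eq_sum]
  refine Finset.sum_nonpos fun j _ => ?_
  by_cases hj : j ∈ T
  · exact smul_nonpos_of_nonneg_of_nonpos (hv j) (rho_nonpos cs (hu j hj))
  · simp [hs j hj]

theorem root_supp {T : Set B} {w : W} (hw : w ∈ par cs T) {i : B} (hi : i ∈ T) (j : B)
    (hj : j ∉ T) : rho cs w (ee i) j = 0 := by
  rw [rho_supp cs hw _ j hj]
  have : j ≠ i := fun e => hj (e ▸ hi)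
  simp [ee, this]

theorem rdesc_mul_iff {T : Set B} {u w : W} (hu : ∀ t ∈ T, ¬ cs.IsRightDescent u t)
    (hw : w ∈ par cs T) {i : B} (hi : i ∈ T) :
    cs.IsRightDescent (u * w) i ↔ cs.IsRightDescent w i := by
  have key : ∀ w ∈ par cs T, ¬ cs.IsRightDescent w i → ¬ cs.IsRightDescent (u * w) i := by
    intro w hw h
    rw [not_descent_iff, map_mul, Module.End.mul_apply]
    exact rho_nonneg_supp cs hu (rho_nonneg cs h) (root_supp cs hw hi)
  constructor
  · intro h; by_contra h'; exact key w hw h' h
  · intro h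
    have := key _ (mul_mem hw (simple_mem_par cs hi))
      (cs.isRightDescent_iff_not_isRightDescent_mul.1 h)
    rw [← mul_assoc] at this
    exact cs.isRightDescent_iff_not_isRightDescent_mul.2 this

theorem length_mul_min {T : Set B} {u w : W} (hu : ∀ t ∈ T, ¬ cs.IsRightDescent u t)
    (hw : w ∈ par cs T) : cs.length (u * w) = cs.length u + cs.length w := by
  refine par_induction cs (P := fun w => cs.length (u * w) = cs.length u + cs.length w) hw
    (by simp) ?_
  intro w hw i hi ih
  rw [← mul_assoc]
  by_cases hd : cs.IsRightDescent w i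
  · have h1 := cs.isRightDescent_iff.1 hd
    have h2 := cs.isRightDescent_iff.1 ((rdesc_mul_iff cs hu hw hi).2 hd)
    omega
  · have h1 := cs.not_isRightDescent_iff.1 hd
    have h2 := cs.not_isRightDescent_iff.1 (mt (rdesc_mul_iff cs hu hw hi).1 hd)
    omega

theorem length_mul_min_left {T : Set B} {u w : W} (hu : ∀ t ∈ T, ¬ cs.IsLeftDescent u t)
    (hw : w ∈ par cs T) : cs.length (w * u) = cs.length w + cs.length u := by
  have := length_mul_min cs (u := u⁻¹) (w := w⁻¹) (T := T)
    (fun t ht => by rw [cs.isRightDescent_inv_iff]; exact hu t ht) (inv_mem hw)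
  rw [← mul_inv_rev, cs.length_inv, cs.length_inv, cs.length_inv] at this
  omega

theorem length_mul_max {T : Set B} {u w : W} (hu : ∀ t ∈ T, cs.IsRightDescent u t)
    (hw : w ∈ par cs T) : cs.length (u * w) + cs.length w = cs.length u := by
  have key : ∀ w ∈ par cs T, ∀ i ∈ T, ¬ cs.IsRightDescent w i → cs.IsRightDescent (u * w) i := by
    intro w hw i hi h
    rw [descent_iff, map_mul, Module.End.mul_apply]
    exact rho_nonpos_supp cs hu (rho_nonneg cs h) (root_supp cs hw hi)
  refine par_induction cs (P := fun w => cs.length (u * w) + cs.length w = cs.length u) hw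
    (by simp) ?_
  intro w hw i hi ih
  rw [← mul_assoc]
  by_cases hd : cs.IsRightDescent w i
  · have h1 := cs.isRightDescent_iff.1 hd
    have h2 := cs.isRightDescent_iff.1 (key _ (mul_mem hw (simple_mem_par cs hi)) i hi
      (cs.isRightDescent_iff_not_isRightDescent_mul.1 hd))
    rw [← mul_assoc, cs.simple_mul_simple_cancel_right] at h2
    omega
  · have h1 := cs.not_isRightDescent_iff.1 hd
    have h2 := cs.isRightDescent_iff.1 (key w hw i hi hd)
    omega

omit [Fintype B] [DecidableEq B] in
theorem exists_min_right (T : Set B) (w : W) :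
    ∃ u v, v ∈ par cs T ∧ (∀ t ∈ T, ¬ cs.IsRightDescent u t) ∧ w = u * v := by
  induction h : cs.length w using Nat.strong_induction_on generalizing w with
  | _ k ih =>
    by_cases hw : ∃ t ∈ T, cs.IsRightDescent w t
    · obtain ⟨t, ht, hd⟩ := hw
      obtain ⟨u, v, h1, h2, h3⟩ := ih _ (h ▸ hd) (w * cs.simple t) rfl
      refine ⟨u, v * cs.simple t, mul_mem h1 (simple_mem_par cs ht), h2, ?_⟩
      rw [← mul_assoc, ← h3, cs.simple_mul_simple_cancel_right]
    · push Not at hw
      exact ⟨w, 1, one_mem _, hw, by simp⟩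

theorem min_unique_left {T : Set B} {u u' v : W} (hu : ∀ t ∈ T, ¬ cs.IsLeftDescent u t)
    (hu' : ∀ t ∈ T, ¬ cs.IsLeftDescent u' t) (hv : v ∈ par cs T) (h : u' = v * u) : v = 1 := by
  have h1 := length_mul_min_left cs hu hv
  have h2 := length_mul_min_left cs hu' (inv_mem hv)
  rw [h, inv_mul_cancel_left, cs.length_inv] at h2
  exact cs.length_eq_zero_iff.1 (by omega)

theorem min_unique_right {T : Set B} {u u' v : W} (hu : ∀ t ∈ T, ¬ cs.IsRightDescent u t)
    (hu' : ∀ t ∈ T, ¬ cs.IsRightDescent u' t) (hv : v ∈ par cs T) (h : u' = u * v) : v = 1 := by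
  have h1 := length_mul_min cs hu hv
  have h2 := length_mul_min cs hu' (inv_mem hv)
  rw [h, mul_inv_cancel_right, cs.length_inv] at h2
  exact cs.length_eq_zero_iff.1 (by omega)

/-- Deodhar's lemma -/
theorem deodhar {u : W} {s t : B} (hu : ¬ cs.IsLeftDescent u t)
    (h : cs.IsLeftDescent (u * cs.simple s) t) : u * cs.simple s = cs.simple t * u := by
  obtain ⟨l, hl, rfl⟩ := cs.exists_isReduced u
  have h1 := cs.not_isLeftDescent_iff.1 hu
  have h2 := cs.isLeftDescent_iff.1 h
  have h3 := cs.length_mul_simple (cs.wordProd l) s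
  have h4 := cs.length_mul_simple (cs.simple t * cs.wordProd l) s
  rw [mul_assoc] at h4
  have h5 : cs.IsLeftDescent (cs.wordProd (l ++ [s])) t := by simpa [cs.wordProd_append] using h
  obtain ⟨l1, x, l2, e1, e2⟩ := exchange_left cs h5
  rcases List.eq_nil_or_concat' l2 with rfl | ⟨l3, y, rfl⟩
  · obtain ⟨rfl, e3⟩ := List.append_inj' e1 rfl
    simp only [List.cons.injEq, and_true] at e3
    rw [e2, e3]
  · exfalso
    rw [← List.cons_append, ← List.append_assoc] at e1
    obtain ⟨rfl, e3⟩ := List.append_inj' e1 rfl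
    have : cs.simple t * cs.wordProd (l1 ++ x :: l3) = cs.wordProd (l1 ++ l3) := by
      rw [cs.wordProd_append, ← mul_assoc, e2, cs.wordProd_cons, cs.wordProd_append]
      simp [mul_assoc]
    have h6 := cs.length_wordProd_le (l1 ++ l3)
    rw [this, hl.eq] at h1
    simp at h1 h6; omega

theorem red_alt {i j : B} (hij : i ≠ j) {n : ℕ} (hn : M i j = 0 ∨ n ≤ M i j) :
    cs.IsReduced (alt i j n) := by
  rw [alt_eq_reverse, cs.isReduced_reverse_iff]
  induction n generalizing i j with
  | zero => simp [alternatingWord, CoxeterSystem.IsReduced]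
  | succ n ih =>
    have h1 := ih hij.symm (by rw [M.symmetric j i]; omega)
    have h2 := rho_alt_nonneg cs (v := 1) hij (n := n) (by omega)
      (rho_nonneg cs (cs.not_isRightDescent_one _)) (rho_nonneg cs (cs.not_isRightDescent_one _))
    rw [one_mul, ← not_descent_iff, cs.not_isRightDescent_iff] at h2
    rw [alternatingWord_succ, List.concat_eq_append]
    exact red_append cs (by simp [h2, h1.eq])

end Pool.Agent.H51
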