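import Pool.Agent.Lib.MP_a1ec0a_al.H.Cox2
import Mathlib.Data.Set.Finite.List

/-! Longest elements, finiteness and infiniteness criteria. -/

set_option linter.unusedSectionVars false

namespace Pool.Agent.H51

open CoxeterSystem

variable {B : Type*} {M : CoxeterMatrix B} {W : Type*} [Group W] (cs : CoxeterSystem M W)
variable [Fintype B] [DecidableEq B]

theorem length_mul_max_left {T : Set B} {u w : W} (hu : ∀ t ∈ T, cs.IsLeftDescent u t)
    (hw : w ∈ par cs T) : cs.length (w * u) + cs.length w = cs.length u := by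
  have := length_mul_max cs (u := u⁻¹) (w := w⁻¹) (T := T)
    (fun t ht => by rw [cs.isRightDescent_inv_iff]; exact hu t ht) (inv_mem hw)
  rwa [← mul_inv_rev, cs.length_inv, cs.length_inv, cs.length_inv] at this

theorem exists_top {T : Set B} (hT : (par cs T : Set W).Finite) :
    ∃ w ∈ par cs T, (∀ t ∈ T, cs.IsRightDescent w t) ∧ ∀ t ∈ T, cs.IsLeftDescent w t := by
  obtain ⟨w, hw, hmax⟩ := hT.exists_maximalFor cs.length _ ⟨1, one_mem _⟩
  refine ⟨w, hw, fun t ht => ?_, fun t ht => ?_⟩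
  · by_contra h
    have h1 := cs.not_isRightDescent_iff.1 h
    have := hmax (mul_mem hw (simple_mem_par cs ht)) (by omega)
    omega
  · by_contra h
    have h1 := cs.not_isLeftDescent_iff.1 h
    have := hmax (mul_mem (simple_mem_par cs ht) hw) (by omega)
    omega

theorem finite_of_ldesc {T : Set B} {w : W} (hw : ∀ t ∈ T, cs.IsLeftDescent w t) :
    (par cs T : Set W).Finite := by
  refine ((List.finite_length_le B (cs.length w)).image cs.wordProd).subset fun v hv => ?_
  obtain ⟨l, hl, rfl⟩ := cs.exists_isReduced v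
  have := length_mul_max_left cs hw hv
  exact ⟨l, by simp only [Set.mem_ofPred_eq]; rw [← hl.eq]; omega, rfl⟩

theorem finite_of_rdesc {T : Set B} {w : W} (hw : ∀ t ∈ T, cs.IsRightDescent w t) :
    (par cs T : Set W).Finite :=
  finite_of_ldesc cs (w := w⁻¹) fun t ht => cs.isLeftDescent_inv_iff.2 (hw t ht)

theorem not_finite_of_vec {T : Set B} {v : B → ℝ} (hv : 0 ≤ v) (hs : ∀ j, j ∉ T → v j = 0)
    (hne : v ≠ 0) (hb : ∀ t ∈ T, bf M t v ≤ 0) : ¬ (par cs T : Set W).Finite := by
  intro hT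
  obtain ⟨w, hw, h1, -⟩ := exists_top cs hT
  have key : ∀ x ∈ par cs T, v ≤ rho cs x v := by
    intro x hx
    induction h : cs.length x using Nat.strong_induction_on generalizing x with
    | _ k ih =>
      by_cases h1 : x = 1
      · subst h1; simp
      obtain ⟨s, hd⟩ := cs.exists_rightDescent_of_ne_one h1
      have hs := rdesc_mem_par cs hx hd
      have h2 := ih _ (h ▸ hd) (x * cs.simple s) (mul_mem hx (simple_mem_par cs hs)) rfl
      have h3 := rho_nonneg cs (cs.isRightDescent_iff_not_isRightDescent_mul.1 hd)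
      have : rho cs x v = rho cs (x * cs.simple s) v +
          (-(2 * bf M s v)) • rho cs (x * cs.simple s) (ee s) := by
        conv_lhs => rw [← cs.simple_mul_simple_cancel_right (w := x) s]
        rw [map_mul (rho cs) (x * cs.simple s), Module.End.mul_apply, rho_simple, sref_apply,
          map_sub, map_smul, neg_smul, sub_eq_add_neg]
      rw [this]
      exact le_add_of_le_of_nonneg h2 (smul_nonneg (by linarith [hb s hs]) h3)
  exact hne (le_antisymm ((key w hw).trans (rho_nonpos_supp cs h1 hv hs)) hv)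

theorem kc_ge {i j : B} {n : ℕ} (hn : 1 ≤ n) (h : M i j = 0 ∨ n ≤ M i j) :
    Real.cos (Real.pi / n) ≤ kc M i j := by
  rcases h with h | h
  · simp [kc, h, Real.cos_le_one]
  · have h1 : (1 : ℝ) ≤ n := by exact_mod_cast hn
    have h2 : (n : ℝ) ≤ M i j := by exact_mod_cast h
    apply Real.cos_le_cos_of_nonneg_of_le_pi
    · positivity
    · exact div_le_self Real.pi_pos.le h1
    · exact div_le_div_of_nonneg_left Real.pi_pos.le (by linarith) h2

theorem kc_nonneg {i j : B} (hij : i ≠ j) : 0 ≤ kc M i j := by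
  have := kc_ge (M := M) (i := i) (j := j) (n := 2) (by omega)
    (by have := M.off_diagonal i j hij; omega)
  simpa using this

theorem kc_ge_half {i j : B} (h : M i j = 0 ∨ 3 ≤ M i j) : 1 / 2 ≤ kc M i j := by
  have := kc_ge (M := M) (i := i) (j := j) (n := 3) (by omega) h
  simpa using this

theorem kc_sq_three {i j : B} (h : M i j = 0 ∨ 3 ≤ M i j) : 1 / 4 ≤ kc M i j ^ 2 := by
  have := kc_ge_half h
  nlinarith

theorem kc_sq_four {i j : B} (h : M i j = 0 ∨ 4 ≤ M i j) : 1 / 2 ≤ kc M i j ^ 2 := by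
  have := kc_ge (M := M) (i := i) (j := j) (n := 4) (by omega) h
  simp only [Nat.cast_ofNat, Real.cos_pi_div_four] at this
  have h2 := Real.sq_sqrt (show (0 : ℝ) ≤ 2 by norm_num)
  have h3 := Real.sqrt_nonneg 2
  nlinarith

theorem kc_sq_six {i j : B} (h : M i j = 0 ∨ 6 ≤ M i j) : 3 / 4 ≤ kc M i j ^ 2 := by
  have := kc_ge (M := M) (i := i) (j := j) (n := 6) (by omega) h
  simp only [Nat.cast_ofNat, Real.cos_pi_div_six] at this
  have h2 := Real.sq_sqrt (show (0 : ℝ) ≤ 3 by norm_num)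
  have h3 := Real.sqrt_nonneg 3
  nlinarith

theorem not_finite_path {i j k : B} (hij : i ≠ j) (hjk : j ≠ k) (hik : i ≠ k)
    (h : 1 ≤ kc M i j ^ 2 + kc M j k ^ 2) : ¬ (par cs {i, j, k} : Set W).Finite := by
  have a1 := kc_nonneg (M := M) hij
  have a2 := kc_nonneg (M := M) hjk
  have a3 := kc_nonneg (M := M) hik
  refine not_finite_of_vec cs (v := kc M i j • ee i + ee j + kc M j k • ee k) ?_ ?_ ?_ ?_
  · have : ∀ x : B, 0 ≤ ee x := fun x => by simpa using rho_nonneg cs (cs.not_isRightDescent_one x)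
    exact add_nonneg (add_nonneg (smul_nonneg a1 (this i)) (this j)) (smul_nonneg a2 (this k))
  · intro x hx
    simp only [Set.mem_insert_iff, Set.mem_singleton_iff, not_or] at hx
    simp [ee, hx.1, hx.2.1, hx.2.2]
  · intro h0
    have := congrFun h0 j
    simp [ee, hij.symm, hjk] at this
  · intro t ht
    simp only [Set.mem_insert_iff, Set.mem_singleton_iff] at ht
    simp only [map_add, map_smul, bf_ee, smul_eq_mul]
    rcases ht with rfl | rfl | rfl
    · simp only [kc_self]; nlinarith [mul_nonneg a2 a3]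
    · simp only [kc_self, kc_symm M t i]; nlinarith
    · simp only [kc_self, kc_symm M t i, kc_symm M t j]; nlinarith [mul_nonneg a1 a3]

/-- a finite set of generators in which every element has two Dynkin neighbours generates an
infinite group -/
theorem not_finite_cycle (C : Finset B) (hC : C.Nonempty)
    (h : ∀ x ∈ C, ∃ y ∈ C, ∃ z ∈ C, y ≠ z ∧ y ≠ x ∧ z ≠ x ∧ M x y ≠ 2 ∧ M x z ≠ 2) :
    ¬ (par cs C : Set W).Finite := by
  refine not_finite_of_vec cs (v := ∑ c ∈ C, ee c) ?_ ?_ ?_ ?_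
  · exact Finset.sum_nonneg fun x _ => by simpa using rho_nonneg cs (cs.not_isRightDescent_one x)
  · intro x hx
    simp only [Finset.sum_apply, ee]
    refine Finset.sum_eq_zero fun c hc => Pi.single_eq_of_ne ?_ _
    rintro rfl; exact hx hc
  · intro h0
    obtain ⟨x, hx⟩ := hC
    have := congrFun h0 x
    simp [ee, Finset.sum_apply, Pi.single_apply, hx] at this
  · intro x hx
    obtain ⟨y, hy, z, hz, h1, h2, h3, h4, h5⟩ := h x hx
    rw [map_sum]
    simp only [bf_ee]
    have hy' : y ∈ C.erase x := Finset.mem_erase.2 ⟨h2, hy⟩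
    have hz' : z ∈ (C.erase x).erase y := Finset.mem_erase.2 ⟨h1.symm, Finset.mem_erase.2 ⟨h3, hz⟩⟩
    rw [← Finset.add_sum_erase _ _ hx, ← Finset.add_sum_erase _ _ hy',
      ← Finset.add_sum_erase _ _ hz']
    have b1 := kc_ge_half (M := M) (i := x) (j := y)
      (by have := M.off_diagonal x y h2.symm; omega)
    have b2 := kc_ge_half (M := M) (i := x) (j := z)
      (by have := M.off_diagonal x z h3.symm; omega)
    have b3 : ∑ c ∈ ((C.erase x).erase y).erase z, -kc M x c ≤ 0 := by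
      refine Finset.sum_nonpos fun c hc => ?_
      have : c ≠ x := (Finset.mem_erase.1 (Finset.mem_of_mem_erase (Finset.mem_of_mem_erase hc))).1
      linarith [kc_nonneg (M := M) this.symm]
    rw [kc_self]; linarith

/-- numerically non-spherical triple of labels -/
def NSph (p q r : ℕ) : Prop :=
  (3 ≤ p ∧ 3 ≤ q ∧ 3 ≤ r) ∨ (4 ≤ p ∧ 4 ≤ q) ∨ (4 ≤ q ∧ 4 ≤ r) ∨ (4 ≤ p ∧ 4 ≤ r) ∨
  (3 ≤ p ∧ 6 ≤ q) ∨ (6 ≤ p ∧ 3 ≤ q) ∨ (3 ≤ q ∧ 6 ≤ r) ∨ (6 ≤ q ∧ 3 ≤ r) ∨
  (3 ≤ p ∧ 6 ≤ r) ∨ (6 ≤ p ∧ 3 ≤ r)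

theorem not_finite_of_nsph {i j k : B} (hij : i ≠ j) (hjk : j ≠ k) (hik : i ≠ k)
    (h : NSph (M i j) (M j k) (M i k)) : ¬ (par cs {i, j, k} : Set W).Finite := by
  have sji := M.symmetric j i
  have skj := M.symmetric k j
  have ski := M.symmetric k i
  have P1 : 1 ≤ kc M i j ^ 2 + kc M j k ^ 2 → ¬ (par cs {i, j, k} : Set W).Finite :=
    not_finite_path cs hij hjk hik
  have P2 : 1 ≤ kc M j k ^ 2 + kc M i k ^ 2 → ¬ (par cs {i, j, k} : Set W).Finite := by
    intro h
    have := not_finite_path cs hjk hik.symm hij.symm (by rwa [kc_symm M k i])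
    rwa [show ({j, k, i} : Set B) = {i, j, k} by ext; simp; tauto] at this
  have P3 : 1 ≤ kc M i j ^ 2 + kc M i k ^ 2 → ¬ (par cs {i, j, k} : Set W).Finite := by
    intro h
    have := not_finite_path cs hij.symm hik hjk (by rwa [kc_symm M j i])
    rwa [show ({j, i, k} : Set B) = {i, j, k} by ext; simp; tauto] at this
  have f3 := fun a b (h : 3 ≤ M a b) => kc_sq_three (M := M) (Or.inr h)
  have f4 := fun a b (h : 4 ≤ M a b) => kc_sq_four (M := M) (Or.inr h)
  have f6 := fun a b (h : 6 ≤ M a b) => kc_sq_six (M := M) (Or.inr h)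
  rcases h with h | h | h | h | h | h | h | h | h | h
  · have := not_finite_cycle cs {i, j, k} (by simp) ?_
    · simpa using this
    · intro x hx
      simp only [Finset.mem_insert, Finset.mem_singleton] at hx
      rcases hx with rfl | rfl | rfl
      · exact ⟨j, by simp, k, by simp, hjk, hij.symm, hik.symm, by omega, by omega⟩
      · exact ⟨i, by simp, k, by simp, hik, hij, hjk.symm, by omega, by omega⟩
      · exact ⟨i, by simp, j, by simp, hij, hik, hjk, by omega, by omega⟩
  · exact P1 (by linarith [f4 _ _ h.1, f4 _ _ h.2])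
  · exact P2 (by linarith [f4 _ _ h.1, f4 _ _ h.2])
  · exact P3 (by linarith [f4 _ _ h.1, f4 _ _ h.2])
  · exact P1 (by linarith [f3 _ _ h.1, f6 _ _ h.2])
  · exact P1 (by linarith [f6 _ _ h.1, f3 _ _ h.2])
  · exact P2 (by linarith [f3 _ _ h.1, f6 _ _ h.2])
  · exact P2 (by linarith [f6 _ _ h.1, f3 _ _ h.2])
  · exact P3 (by linarith [f3 _ _ h.1, f6 _ _ h.2])
  · exact P3 (by linarith [f6 _ _ h.1, f3 _ _ h.2])

end Pool.Agent.H51
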