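import Pool.Agent.Lib.MP_a1ec0a_al.H.Retract

/-! The Artin monoid: cancellation and least common multiples. -/

set_option linter.unusedSectionVars false

namespace Pool.Agent.H51

open CoxeterSystem

variable {B : Type*} {M : CoxeterMatrix B}

/-- left divisibility of positive words -/
def Dv (M : CoxeterMatrix B) (a b : List B) : Prop := ∃ c, BE M (a ++ c) b

theorem Dv.refl (a : List B) : Dv M a a := ⟨[], by simpa using BE.refl a⟩
theorem Dv.nil (a : List B) : Dv M [] a := ⟨a, BE.refl a⟩
theorem Dv.trans {a b c : List B} (h : Dv M a b) (h' : Dv M b c) : Dv M a c := by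
  obtain ⟨x, hx⟩ := h
  obtain ⟨y, hy⟩ := h'
  exact ⟨x ++ y, by rw [← List.append_assoc]; exact (hx.append (BE.refl y)).trans hy⟩
theorem BE.dv {a b : List B} (h : BE M a b) : Dv M a b := ⟨[], by simpa using h⟩
theorem Dv.append (a b : List B) : Dv M a (a ++ b) := ⟨b, BE.refl _⟩
theorem Dv.left {a b : List B} (h : Dv M a b) (x : List B) : Dv M (x ++ a) (x ++ b) := by
  obtain ⟨c, hc⟩ := h
  exact ⟨c, by rw [List.append_assoc]; exact (BE.refl x).append hc⟩
theorem Dv.cons {a b : List B} (h : Dv M a b) (x : B) : Dv M (x :: a) (x :: b) := h.left [x]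
theorem Dv.length_le {a b : List B} (h : Dv M a b) : a.length ≤ b.length := by
  obtain ⟨c, hc⟩ := h
  have := hc.length_eq
  simp at this; omega
theorem Dv.mem {a b : List B} (h : Dv M a b) {c : B} (hc : c ∈ a) : c ∈ b := by
  obtain ⟨x, hx⟩ := h
  exact hx.mem (List.mem_append_left _ hc)
theorem Dv.head {s : B} {a b : List B} (h : Dv M (s :: a) b) : Dv M [s] b :=
  (Dv.append [s] a).trans h

variable [Fintype B] [DecidableEq B]

/-- the reduction lemma below a given length -/
def KK (M : CoxeterMatrix B) (n : ℕ) : Prop :=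
  ∀ s t X Y, X.length < n → BE M (s :: X) (t :: Y) → M s t ≠ 0 ∧
    ∃ Z, BE M X (alt t s (M s t - 1) ++ Z) ∧ BE M Y (alt s t (M s t - 1) ++ Z)

theorem KK.cancel {n : ℕ} (h : KK M n) {p X Y : List B} (hl : (p ++ X).length ≤ n)
    (e : BE M (p ++ X) (p ++ Y)) : BE M X Y := by
  induction p with
  | nil => exact e
  | cons s p ih =>
    simp only [List.cons_append, List.length_cons] at hl e
    obtain ⟨-, Z, h1, h2⟩ := h s s _ _ (by omega) e
    exact ih (by omega) (h1.trans h2.symm)

theorem KK.dv {n : ℕ} (h : KK M n) {p a V : List B} (hl : (p ++ V).length ≤ n)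
    (e : Dv M (p ++ a) (p ++ V)) : Dv M a V := by
  obtain ⟨c, hc⟩ := e
  rw [List.append_assoc] at hc
  exact ⟨c, (h.cancel hl hc.symm).symm⟩

theorem alt_M {s t : B} (h : M s t ≠ 0) : alt s t (M s t) = s :: alt t s (M s t - 1) := by
  obtain ⟨m, hm⟩ : ∃ m, M s t = m + 1 := ⟨M s t - 1, by omega⟩
  rw [hm]; rfl

theorem braid_cons {s t : B} (h : M s t ≠ 0) :
    BE M (s :: alt t s (M s t - 1)) (t :: alt s t (M s t - 1)) := by
  have := BE.braid (M := M) s t
  rw [alt_M h] at this
  obtain ⟨m, hm⟩ : ∃ m, M s t = m + 1 := ⟨M s t - 1, by omega⟩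
  rw [hm] at this ⊢
  exact this

/-- `x` followed by the word `p` is reduced -/
def RedA (M : CoxeterMatrix B) (x : M.Group) (p : List B) : Prop :=
  (cx M).length (x * (cx M).wordProd p) = (cx M).length x + p.length

theorem RedA.be {x : M.Group} {p q : List B} (h : RedA M x p) (e : BE M p q) : RedA M x q := by
  unfold RedA at *
  rw [← e.wordProd_eq, ← e.length_eq, h]

theorem RedA.left {x : M.Group} {p q : List B} (h : RedA M x (p ++ q)) : RedA M x p :=
  len_split _ h

theorem RedA.of_dv {x : M.Group} {p q : List B} (h : RedA M x q) (e : Dv M p q) : RedA M x p := by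
  obtain ⟨c, hc⟩ := e
  exact (h.be hc.symm).left

theorem redA_cons {x : M.Group} {s : B} {p : List B} :
    RedA M x (s :: p) ↔ ¬ (cx M).IsRightDescent x s ∧ RedA M (x * (cx M).simple s) p := by
  constructor
  · intro h
    have h1 : RedA M x [s] := RedA.left (q := p) h
    simp only [RedA, wordProd_singleton, List.length_singleton] at h1
    refine ⟨(cx M).not_isRightDescent_iff.2 h1, ?_⟩
    simp only [RedA, wordProd_cons, List.length_cons, ← mul_assoc] at h ⊢
    omega
  · rintro ⟨h1, h2⟩
    rw [(cx M).not_isRightDescent_iff] at h1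
    simp only [RedA, wordProd_cons, List.length_cons, ← mul_assoc] at h2 ⊢
    omega

theorem redA_one {p : List B} : RedA M 1 p ↔ (cx M).IsReduced p := by
  simp [RedA, CoxeterSystem.IsReduced]

theorem redA_braid {x : M.Group} {s t : B} (hs : ¬ (cx M).IsRightDescent x s)
    (ht : ¬ (cx M).IsRightDescent x t) : RedA M x (alt s t (M s t)) := by
  have h1 : (cx M).IsReduced (alt s t (M s t)) := by
    by_cases hst : s = t
    · subst hst; simp [alt, CoxeterSystem.IsReduced]
    · exact red_alt _ hst (Or.inr le_rfl)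
  unfold RedA
  rw [length_mul_min (cx M) (T := {s, t}) (by rintro c (rfl | rfl) <;> assumption)
    (wordProd_mem_par _ fun c hc => mem_alt hc), h1.eq]

theorem KK.join {n : ℕ} (h : KK M n) {V : List B} (hV : V.length ≤ n) {x : M.Group} {p q : List B}
    (hp : Dv M p V) (hq : Dv M q V) (rp : RedA M x p) (rq : RedA M x q) :
    ∃ u, Dv M p u ∧ Dv M q u ∧ Dv M u V ∧ RedA M x u := by
  induction hk : V.length using Nat.strong_induction_on generalizing V x p q with
  | _ k ih =>
    match p, q with
    | [], q => exact ⟨q, Dv.nil _, Dv.refl _, hq, rq⟩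
    | p, [] => exact ⟨p, Dv.refl _, Dv.nil _, hp, rp⟩
    | s :: p, t :: q =>
      obtain ⟨c, hc⟩ := hp
      obtain ⟨d, hd⟩ := hq
      have l1 := hc.length_eq
      have l2 := hd.length_eq
      simp only [List.cons_append, List.length_cons] at hc hd l1 l2
      obtain ⟨h0, Z, h1, h2⟩ := h s t _ _ (by omega) (hc.trans hd.symm)
      obtain ⟨a1, a2⟩ := redA_cons.1 rp
      obtain ⟨b1, b2⟩ := redA_cons.1 rq
      have r1 := redA_braid a1 b1
      rw [alt_M h0] at r1
      obtain ⟨u1, c1, ⟨e, c2⟩, c3, c4⟩ := ih _ (by omega) (V := p ++ c) (by omega)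
        (Dv.append _ _) ⟨Z, h1.symm⟩ a2 (redA_cons.1 r1).2 rfl
      have e1 : BE M (t :: (alt s t (M s t - 1) ++ e)) (s :: u1) :=
        ((braid_cons h0).symm.append (BE.refl e)).trans (c2.cons s)
      have r2 := (redA_cons.2 ⟨a1, c4⟩).be e1.symm
      have d1 : Dv M (alt s t (M s t - 1) ++ e) (q ++ d) :=
        h.dv (p := [t]) (by simp at l2 ⊢; omega)
          ((e1.dv.trans (c3.cons s)).trans (hc.trans hd.symm).dv)
      obtain ⟨u2, f1, f2, f3, f4⟩ := ih _ (by omega) (V := q ++ d) (by omega)
        d1 (Dv.append _ _) (redA_cons.1 r2).2 b2 rfl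
      exact ⟨t :: u2, ((c1.cons s).trans e1.symm.dv).trans (f1.cons t), f2.cons t,
        (f3.cons t).trans hd.dv, redA_cons.2 ⟨b1, f4⟩⟩

theorem ldesc_of_dv {s : B} {u : List B} (hu : (cx M).IsReduced u) (h : Dv M [s] u) :
    (cx M).IsLeftDescent ((cx M).wordProd u) s := by
  obtain ⟨c, hc⟩ := h
  rw [← hc.wordProd_eq]
  exact (red_cons _ (hc.symm.isReduced _ hu)).2

theorem dv_braid_of_red {s t : B} {u : List B} (hu : (cx M).IsReduced u) (hs : Dv M [s] u)
    (ht : Dv M [t] u) : M s t ≠ 0 ∧ Dv M (alt s t (M s t)) u := by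
  by_cases hst : s = t
  · subst hst; simpa [alt] using hs
  obtain ⟨h0, v, h1, h2⟩ := both_left _ hst (ldesc_of_dv hu hs) (ldesc_of_dv hu ht)
  obtain ⟨ν, hν, rfl⟩ := (cx M).exists_isReduced v
  exact ⟨h0, ν, matsumoto _ (red_append _ (by rw [← h1, h2, hν.eq]; simp)) hu
    (by rw [h1, wordProd_append])⟩

theorem cancel_red {s : B} {a b : List B} (h : (cx M).IsReduced (s :: a))
    (e : BE M (s :: a) (s :: b)) : BE M a b := by
  refine matsumoto _ (red_cons _ h).1 (red_cons _ (e.isReduced _ h)).1 ?_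
  have := e.wordProd_eq (cx M)
  rwa [wordProd_cons, wordProd_cons, mul_right_inj] at this

theorem kk (n : ℕ) : KK M n := by
  induction n with
  | zero => intro _ _ _ _ h; omega
  | succ n ih =>
    intro s t X Y hX e
    generalize hl : t :: Y = l at e
    induction e generalizing t Y with
    | refl =>
      obtain ⟨rfl, rfl⟩ := List.cons.inj hl
      exact ⟨by simp, Y, by simpa [alt] using BE.refl Y, by simpa [alt] using BE.refl Y⟩
    | @tail l1 l2 e1 e2 ih2 =>
      have hlen := BE.length_eq e1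
      obtain ⟨r, V, rfl⟩ : ∃ r V, l1 = r :: V := by
        cases l1 with
        | nil => simp at hlen
        | cons r V => exact ⟨r, V, rfl⟩
      obtain ⟨h0, Z1, a1, a2⟩ := ih2 r V rfl
      have step : M r t ≠ 0 ∧
          ∃ Z, BE M V (alt t r (M r t - 1) ++ Z) ∧ BE M Y (alt r t (M r t - 1) ++ Z) := by
        subst hl
        generalize hA : r :: V = A at e2
        generalize hB : t :: Y = C at e2
        obtain ⟨x, y, i, j⟩ := e2
        cases x with
        | cons c x =>
          simp only [List.cons_append, List.cons.injEq] at hA hB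
          obtain ⟨rfl, rfl⟩ := hA
          obtain ⟨rfl, rfl⟩ := hB
          exact ⟨by simp, _, by simpa [alt] using BE.refl _,
            by simpa [alt] using ((BE.braid i j).ctx x y).symm⟩
        | nil =>
          by_cases h0 : M i j = 0
          · simp only [h0, alt, List.nil_append] at hA hB
            obtain ⟨rfl, rfl⟩ := List.cons.inj (hA.trans hB.symm)
            exact ⟨by simp, V, by simpa [alt] using BE.refl V, by simpa [alt] using BE.refl V⟩
          · obtain ⟨m, hm⟩ : ∃ m, M i j = m + 1 := ⟨M i j - 1, by omega⟩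
            simp only [hm, alt, List.nil_append, List.cons_append, List.cons.injEq] at hA hB
            obtain ⟨rfl, rfl⟩ := hA
            obtain ⟨rfl, rfl⟩ := hB
            rw [hm]
            exact ⟨by simp, y, BE.refl _, BE.refl _⟩
      obtain ⟨h1, Z2, b1, b2⟩ := step
      simp only [List.length_cons] at hlen
      have h0' : M r s ≠ 0 := M.symmetric r s ▸ h0
      have r1 := redA_braid ((cx M).not_isRightDescent_one r) ((cx M).not_isRightDescent_one s)
      have r2 := redA_braid ((cx M).not_isRightDescent_one r) ((cx M).not_isRightDescent_one t)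
      rw [alt_M h0', M.symmetric r s] at r1
      rw [alt_M h1] at r2
      obtain ⟨u, ⟨u1, c1⟩, ⟨u2, c2⟩, ⟨V', c3⟩, c4⟩ := ih.join (V := V) (by omega) ⟨Z1, a2.symm⟩
        ⟨Z2, b1.symm⟩ (redA_cons.1 r1).2 (redA_cons.1 r2).2
      have ru := redA_one.1 (redA_cons.2 ⟨(cx M).not_isRightDescent_one r, c4⟩)
      have f1 : BE M (s :: (alt r s (M s r - 1) ++ u1)) (r :: u) :=
        ((braid_cons h0).append (BE.refl u1)).trans (c1.cons r)
      have f2 : BE M (t :: (alt r t (M r t - 1) ++ u2)) (r :: u) :=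
        ((braid_cons h1).symm.append (BE.refl u2)).trans (c2.cons r)
      obtain ⟨h2, u', g⟩ := dv_braid_of_red ru f1.dv.head f2.dv.head
      rw [alt_M h2] at g
      have g' := ((braid_cons h2).symm.append (BE.refl u')).trans g
      have k1 := cancel_red (f1.symm.isReduced _ ru) (f1.trans g.symm)
      have k2 := cancel_red (f2.symm.isReduced _ ru) (f2.trans g'.symm)
      have z1 : BE M Z1 (u1 ++ V') := ih.cancel (p := alt s r (M s r - 1))
        (by rw [← a2.length_eq]; omega)
        (a2.symm.trans (c3.symm.trans (by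
          rw [← List.append_assoc]; exact c1.symm.append (BE.refl _))))
      have z2 : BE M Z2 (u2 ++ V') := ih.cancel (p := alt t r (M r t - 1))
        (by rw [← b1.length_eq]; omega)
        (b1.symm.trans (c3.symm.trans (by
          rw [← List.append_assoc]; exact c2.symm.append (BE.refl _))))
      refine ⟨h2, u' ++ V', a1.trans (((BE.refl _).append z1).trans ?_),
        b2.trans (((BE.refl _).append z2).trans ?_)⟩
      · rw [← List.append_assoc, ← List.append_assoc]; exact k1.append (BE.refl _)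
      · rw [← List.append_assoc, ← List.append_assoc]; exact k2.append (BE.refl _)

theorem BE.cancel_left {p X Y : List B} (e : BE M (p ++ X) (p ++ Y)) : BE M X Y :=
  (kk _).cancel le_rfl e

theorem BE.cancel_right {p X Y : List B} (e : BE M (X ++ p) (Y ++ p)) : BE M X Y := by
  have := e.reverse
  rw [List.reverse_append, List.reverse_append] at this
  simpa using this.cancel_left.reverse

theorem Dv.cancel {p a V : List B} (e : Dv M (p ++ a) (p ++ V)) : Dv M a V := (kk _).dv le_rfl e

theorem dv_braid {s t : B} {V : List B} (hs : Dv M [s] V) (ht : Dv M [t] V) :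
    M s t ≠ 0 ∧ Dv M (alt s t (M s t)) V := by
  obtain ⟨u, h1, h2, h3, h4⟩ := (kk _).join le_rfl (x := 1) hs ht
    (redA_one.2 (by simp [CoxeterSystem.IsReduced])) (redA_one.2 (by simp [CoxeterSystem.IsReduced]))
  obtain ⟨a, b⟩ := dv_braid_of_red (redA_one.1 h4) h1 h2
  exact ⟨a, b.trans h3⟩

/-- a common multiple of letters has a simple divisor with the same property -/
theorem exists_red_dv {V : List B} (L : List B) (h : ∀ s ∈ L, Dv M [s] V) :
    ∃ u, (cx M).IsReduced u ∧ Dv M u V ∧ ∀ s ∈ L, Dv M [s] u := by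
  induction L with
  | nil => exact ⟨[], by simp [CoxeterSystem.IsReduced], Dv.nil _, by simp⟩
  | cons a L ih =>
    obtain ⟨u, h1, h2, h3⟩ := ih fun s hs => h s (by simp [hs])
    obtain ⟨u', a1, a2, a3, a4⟩ := (kk _).join le_rfl (x := 1) h2 (h a (by simp))
      (redA_one.2 h1) (redA_one.2 (by simp [CoxeterSystem.IsReduced]))
    refine ⟨u', redA_one.1 a4, a3, fun s hs => ?_⟩
    rcases List.mem_cons.1 hs with rfl | hs
    · exact a2
    · exact (h3 s hs).trans a1

theorem sph_iff {T : Set B} : Sph M T ↔ (par (cx M) T : Set M.Group).Finite := Iff.rfl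

theorem sph_of_dv {T : Set B} {V : List B} (h : ∀ s ∈ T, Dv M [s] V) : Sph M T := by
  classical
  obtain ⟨u, h1, -, h3⟩ := exists_red_dv (V := V) (Finset.univ.filter (· ∈ T)).toList
    (fun s hs => h s (by simpa using hs))
  exact finite_of_ldesc (cx M) fun t ht => ldesc_of_dv h1 (h3 t (by simpa using ht))

theorem Sph.mono {T T' : Set B} (h : Sph M T) (hT : T' ⊆ T) : Sph M T' :=
  Set.Finite.subset h (par_mono (cx M) hT)

/-- least common multiples, relative to a morphism of Artin monoids -/
theorem exists_lcm_map {B' : Type*} [Fintype B'] [DecidableEq B'] {M' : CoxeterMatrix B'}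
    {T : Set B} (φ : B → List B') (hne : ∀ s ∈ T, φ s ≠ [])
    (hbe : ∀ a b, (∀ c ∈ a, c ∈ T) → BE M a b → BE M' (a.flatMap φ) (b.flatMap φ))
    (hφ : ∀ s ∈ T, ∀ t ∈ T, ∀ c, Dv M' (φ s) c → Dv M' (φ t) c →
      M s t ≠ 0 ∧ Dv M' ((alt s t (M s t)).flatMap φ) c)
    {u v : List B} (hu : ∀ c ∈ u, c ∈ T) (hv : ∀ c ∈ v, c ∈ T) {c : List B'}
    (h1 : Dv M' (u.flatMap φ) c) (h2 : Dv M' (v.flatMap φ) c) :
    ∃ l, (∀ c ∈ l, c ∈ T) ∧ Dv M u l ∧ Dv M v l ∧
      ∀ c', Dv M' (u.flatMap φ) c' → Dv M' (v.flatMap φ) c' → Dv M' (l.flatMap φ) c' := by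
  induction hk : c.length using Nat.strong_induction_on generalizing u v c with
  | _ k ih =>
    match u, v with
    | [], v => exact ⟨v, hv, Dv.nil _, Dv.refl _, fun _ _ h => h⟩
    | u, [] => exact ⟨u, hu, Dv.refl _, Dv.nil _, fun _ h _ => h⟩
    | s :: u, t :: v =>
      have hs := hu s (by simp)
      have ht := hv t (by simp)
      have hu' : ∀ c ∈ u, c ∈ T := fun c hc => hu c (by simp [hc])
      have hv' : ∀ c ∈ v, c ∈ T := fun c hc => hv c (by simp [hc])
      simp only [List.flatMap_cons] at h1 h2 ⊢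
      have strip : ∀ {p a b : List B'} {c}, Dv M' (p ++ a) c → Dv M' (p ++ b) c →
          ∃ c1, BE M' (p ++ c1) c ∧ Dv M' a c1 ∧ Dv M' b c1 := by
        rintro p a b c ⟨x, hx⟩ hb
        rw [List.append_assoc] at hx
        exact ⟨a ++ x, hx, Dv.append _ _, (hb.trans hx.symm.dv).cancel⟩
      have h0 := (hφ s hs t ht c ((Dv.append _ _).trans h1) ((Dv.append _ _).trans h2)).1
      have hd : ∀ c', Dv M' (φ s ++ u.flatMap φ) c' → Dv M' (φ t ++ v.flatMap φ) c' →
          Dv M' (φ s ++ (alt t s (M s t - 1)).flatMap φ) c' := by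
        intro c' a b
        have := (hφ s hs t ht c' ((Dv.append _ _).trans a) ((Dv.append _ _).trans b)).2
        rwa [alt_M h0, List.flatMap_cons] at this
      have ma : ∀ {x y : B} n, x ∈ T → y ∈ T → ∀ c ∈ alt x y n, c ∈ T := by
        intro x y n hx hy c hc
        rcases mem_alt hc with rfl | rfl <;> assumption
      obtain ⟨c1, a1, a2, a3⟩ := strip h1 (hd c h1 h2)
      have l1 := a1.length_eq
      have l1' := List.length_pos_iff.2 (hne s hs)
      rw [List.length_append] at l1
      obtain ⟨m1, b0, b1, ⟨e, b2⟩, b3⟩ := ih _ (by omega) hu' (ma _ ht hs) a2 a3 rfl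
      have he : ∀ c ∈ e, c ∈ T := fun c hc => b0 c (b2.mem (by simp [hc]))
      have e1 : BE M (t :: (alt s t (M s t - 1) ++ e)) (s :: m1) :=
        ((braid_cons h0).symm.append (BE.refl e)).trans (b2.cons s)
      have hw : ∀ c ∈ alt s t (M s t - 1) ++ e, c ∈ T := by
        intro c hc
        rcases List.mem_append.1 hc with hc | hc
        · exact ma _ hs ht c hc
        · exact he c hc
      have e2 := hbe _ _ (by
        intro c hc
        rcases List.mem_cons.1 hc with rfl | hc
        · exact ht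
        · exact hw c hc) e1
      simp only [List.flatMap_cons] at e2
      have hd2 : ∀ c', Dv M' (φ s ++ u.flatMap φ) c' → Dv M' (φ t ++ v.flatMap φ) c' →
          Dv M' (φ t ++ (alt s t (M s t - 1) ++ e).flatMap φ) c' := by
        intro c' a b
        obtain ⟨c1', x1, x2, x3⟩ := strip a (hd c' a b)
        exact (e2.dv.trans ((b3 _ x2 x3).left _)).trans x1.dv
      obtain ⟨c2, d1, d2, d3⟩ := strip (hd2 c h1 h2) h2
      have l2 := d1.length_eq
      have l2' := List.length_pos_iff.2 (hne t ht)
      rw [List.length_append] at l2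
      obtain ⟨m2, f0, f1, f2, f3⟩ := ih _ (by omega) hw hv' d2 d3 rfl
      refine ⟨t :: m2, ?_, ((b1.cons s).trans e1.symm.dv).trans (f1.cons t), f2.cons t, ?_⟩
      · intro c hc
        rcases List.mem_cons.1 hc with rfl | hc
        · exact ht
        · exact f0 c hc
      · intro c' a b
        obtain ⟨c2', x1, x2, x3⟩ := strip (hd2 c' a b) b
        rw [List.flatMap_cons]
        exact ((f3 _ x2 x3).left _).trans x1.dv

theorem exists_lcm {T : Set B} {u v : List B} (hu : ∀ c ∈ u, c ∈ T) (hv : ∀ c ∈ v, c ∈ T)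
    {c : List B} (h1 : Dv M u c) (h2 : Dv M v c) :
    ∃ l, (∀ c ∈ l, c ∈ T) ∧ Dv M u l ∧ Dv M v l ∧ ∀ c', Dv M u c' → Dv M v c' → Dv M l c' := by
  simpa using exists_lcm_map (M := M) (M' := M) (T := T) (fun s => [s]) (by simp) (by simp)
    (fun s _ t _ c a b => by simpa using dv_braid a b) hu hv (c := c) (by simpa) (by simpa)

end Pool.Agent.H51
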