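import Pool.Agent.Lib.MP_a1ec0a_al.H.Mon1

/-! Spherical Artin groups: Ore condition, embedding of the monoid, lattice order, word problem. -/

set_option linter.unusedSectionVars false

namespace Pool.Agent.H51

open CoxeterSystem

variable {B : Type*} {M : CoxeterMatrix B} [Fintype B] [DecidableEq B]

/-- words over `T` -/
def Ov (T : Set B) (l : List B) : Prop := ∀ c ∈ l, c ∈ T

omit [Fintype B] [DecidableEq B] in
theorem Ov.nil {T : Set B} : Ov T [] := by simp [Ov]
omit [Fintype B] [DecidableEq B] in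
theorem ov_append {T : Set B} {a b : List B} : Ov T (a ++ b) ↔ Ov T a ∧ Ov T b := by
  simp [Ov, or_imp, forall_and]
omit [Fintype B] [DecidableEq B] in
theorem ov_cons {T : Set B} {a : B} {b : List B} : Ov T (a :: b) ↔ a ∈ T ∧ Ov T b := by
  simp [Ov]
omit [Fintype B] [DecidableEq B] in
theorem Ov.reverse {T : Set B} {a : List B} (h : Ov T a) : Ov T a.reverse :=
  fun c hc => h c (List.mem_reverse.1 hc)
omit [Fintype B] [DecidableEq B] in
theorem Ov.mono {T T' : Set B} {a : List B} (h : Ov T a) (hT : T ⊆ T') : Ov T' a :=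
  fun c hc => hT (h c hc)
theorem Ov.of_dv {T : Set B} {a b : List B} (h : Ov T b) (e : Dv M a b) : Ov T a :=
  fun c hc => h c (e.mem hc)
theorem Ov.be {T : Set B} {a b : List B} (h : Ov T b) (e : BE M a b) : Ov T a := h.of_dv e.dv

/-- a Garside word for `T` -/
def IsDel (M : CoxeterMatrix B) (T : Set B) (δ : List B) : Prop :=
  Ov T δ ∧ (cx M).IsReduced δ ∧ (∀ t ∈ T, (cx M).IsRightDescent ((cx M).wordProd δ) t) ∧
    ∀ t ∈ T, (cx M).IsLeftDescent ((cx M).wordProd δ) t

theorem Sph.exists_del {T : Set B} (h : Sph M T) : ∃ δ, IsDel M T δ := by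
  obtain ⟨w, h1, h2, h3⟩ := exists_top (cx M) h
  obtain ⟨l, a1, a2, rfl⟩ := exists_red_par _ h1
  exact ⟨l, a1, a2, h2, h3⟩

theorem IsDel.reverse {T : Set B} {δ : List B} (h : IsDel M T δ) : IsDel M T δ.reverse :=
  ⟨h.1.reverse, h.2.1.reverse, fun t ht => by
    rw [wordProd_reverse, isRightDescent_inv_iff]; exact h.2.2.2 t ht,
    fun t ht => by rw [wordProd_reverse, isLeftDescent_inv_iff]; exact h.2.2.1 t ht⟩

theorem IsDel.red_dv {T : Set B} {δ p : List B} (h : IsDel M T δ) (hp : Ov T p)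
    (hr : (cx M).IsReduced p) : Dv M p δ := by
  have h1 := length_mul_max_left (cx M) h.2.2.2 (inv_mem (wordProd_mem_par _ hp))
  obtain ⟨ν, hν, e⟩ := (cx M).exists_isReduced (((cx M).wordProd p)⁻¹ * (cx M).wordProd δ)
  rw [(cx M).length_inv, e, hν.eq, hr.eq, h.2.1.eq] at h1
  refine ⟨ν, matsumoto _ (red_append _ ?_) h.2.1 (by rw [wordProd_append, ← e]; simp)⟩
  rw [← e, mul_inv_cancel_left, h.2.1.eq]; omega

theorem IsDel.move1 {T : Set B} {δ : List B} (h : IsDel M T δ) {s : B} (hs : s ∈ T) :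
    ∃ s' ∈ T, BE M (s :: δ) (δ ++ [s']) := by
  obtain ⟨u, hu⟩ := h.red_dv (p := [s]) (by simpa [Ov] using hs)
    (by simp [CoxeterSystem.IsReduced])
  have ou : Ov T u := (ov_append.1 (h.1.be hu)).2
  obtain ⟨v, hv⟩ := h.red_dv ou (red_cons _ (hu.symm.isReduced _ h.2.1)).1
  have l1 := hu.length_eq
  have l2 := hv.length_eq
  simp only [List.length_append, List.length_cons, List.length_nil] at l1 l2
  obtain ⟨s', rfl⟩ := List.length_eq_one_iff.1 (show v.length = 1 by omega)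
  exact ⟨s', (ov_append.1 (h.1.be hv)).2 s' (by simp),
    (hv.symm.cons s).trans (hu.append (BE.refl _))⟩

theorem IsDel.move {T : Set B} {δ : List B} (h : IsDel M T δ) {u : List B} (hu : Ov T u) :
    ∃ u', Ov T u' ∧ BE M (u ++ δ) (δ ++ u') := by
  induction u with
  | nil => exact ⟨[], Ov.nil, by simpa using BE.refl δ⟩
  | cons s u ih =>
    obtain ⟨u', h1, h2⟩ := ih (ov_cons.1 hu).2
    obtain ⟨s', h3, h4⟩ := h.move1 (ov_cons.1 hu).1
    refine ⟨s' :: u', ov_cons.2 ⟨h3, h1⟩, (h2.cons s).trans ?_⟩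
    simpa using h4.append (BE.refl u')

/-- power of a word -/
def wpow (δ : List B) : ℕ → List B
  | 0 => []
  | n + 1 => δ ++ wpow δ n

omit [Fintype B] [DecidableEq B] in
theorem wpow_add (δ : List B) (n m : ℕ) : wpow δ (n + m) = wpow δ n ++ wpow δ m := by
  induction n with
  | zero => simp [wpow]
  | succ n ih => rw [show n + 1 + m = (n + m) + 1 by ring, wpow, ih, wpow, List.append_assoc]

omit [Fintype B] [DecidableEq B] in
theorem Ov.wpow {T : Set B} {δ : List B} (h : Ov T δ) (n : ℕ) : Ov T (wpow δ n) := by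
  induction n with
  | zero => exact Ov.nil
  | succ n ih => exact ov_append.2 ⟨h, ih⟩

theorem IsDel.move_pow {T : Set B} {δ : List B} (h : IsDel M T δ) {u : List B} (hu : Ov T u)
    (n : ℕ) : ∃ u', Ov T u' ∧ BE M (u ++ wpow δ n) (wpow δ n ++ u') := by
  induction n generalizing u with
  | zero => exact ⟨u, hu, by simpa [wpow] using BE.refl u⟩
  | succ n ih =>
    obtain ⟨u1, h1, h2⟩ := h.move hu
    obtain ⟨u2, h3, h4⟩ := ih h1
    refine ⟨u2, h3, ?_⟩
    rw [wpow, ← List.append_assoc]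
    refine (h2.append (BE.refl _)).trans ?_
    rw [List.append_assoc, List.append_assoc]
    exact (BE.refl δ).append h4

theorem IsDel.dv_pow {T : Set B} {δ : List B} (h : IsDel M T δ) {a : List B} (ha : Ov T a) :
    Dv M a (wpow δ a.length) := by
  induction a with
  | nil => exact Dv.nil _
  | cons s a ih =>
    obtain ⟨u, hu⟩ := h.red_dv (p := [s]) (by simpa [Ov] using (ov_cons.1 ha).1)
      (by simp [CoxeterSystem.IsReduced])
    obtain ⟨u', -, h2⟩ := h.move_pow (ov_append.1 (h.1.be hu)).2 a.length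
    refine ((((ih (ov_cons.1 ha).2).trans (Dv.append _ u')).trans h2.symm.dv).cons s).trans ?_
    exact (hu.append (BE.refl _)).dv

theorem Sph.common {T : Set B} (h : Sph M T) {a b : List B} (ha : Ov T a) (hb : Ov T b) :
    ∃ c d, Ov T c ∧ Ov T d ∧ BE M (a ++ c) (b ++ d) := by
  obtain ⟨δ, hδ⟩ := h.exists_del
  obtain ⟨c, hc⟩ := (hδ.dv_pow ha).trans (Dv.append _ (wpow δ b.length))
  obtain ⟨d, hd⟩ := (hδ.dv_pow hb).trans (Dv.append _ (wpow δ a.length))
  rw [← wpow_add] at hc hd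
  rw [add_comm] at hd
  exact ⟨c, d, (ov_append.1 ((hδ.1.wpow _).be hc)).2, (ov_append.1 ((hδ.1.wpow _).be hd)).2,
    hc.trans hd.symm⟩

theorem Sph.common_left {T : Set B} (h : Sph M T) {a b : List B} (ha : Ov T a) (hb : Ov T b) :
    ∃ c d, Ov T c ∧ Ov T d ∧ BE M (c ++ a) (d ++ b) := by
  obtain ⟨c, d, h1, h2, h3⟩ := h.common ha.reverse hb.reverse
  exact ⟨_, _, h1.reverse, h2.reverse, by simpa using h3.reverse⟩

/-- fractions with denominator a power of `δ` -/
def frSetoid (M : CoxeterMatrix B) (T : Set B) (δ : List B) : Setoid (ℕ × {l // Ov T l}) where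
  r x y := BE M (wpow δ y.1 ++ x.2.1) (wpow δ x.1 ++ y.2.1)
  iseqv := ⟨fun _ => BE.refl _, BE.symm, fun {x y z} h1 h2 => by
    apply BE.cancel_left (p := wpow δ y.1)
    have a1 := (BE.refl (M := M) (wpow δ z.1)).append h1
    have a2 := (BE.refl (M := M) (wpow δ x.1)).append h2
    simp only [← List.append_assoc, ← wpow_add] at a1 a2 ⊢
    rw [add_comm y.1 z.1, add_comm y.1 x.1]
    rw [add_comm z.1 x.1] at a1
    exact a1.trans a2⟩

open Classical in
/-- right multiplication of fractions by a letter -/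
noncomputable def frMul (M : CoxeterMatrix B) (T : Set B) (δ : List B) (s : B) :
    Quotient (frSetoid M T δ) → Quotient (frSetoid M T δ) :=
  if hs : s ∈ T then
    Quotient.map (fun x => (x.1, ⟨x.2.1 ++ [s], ov_append.2 ⟨x.2.2, by simpa [Ov] using hs⟩⟩))
      (fun x y h => by
        have := BE.append h (BE.refl [s])
        simp only [List.append_assoc] at this
        exact this)
  else id

theorem frMul_bij {T : Set B} {δ : List B} (h : IsDel M T δ) (s : B) :
    Function.Bijective (frMul M T δ s) := by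
  unfold frMul
  split_ifs with hs
  swap
  · exact Function.bijective_id
  constructor
  · rintro ⟨x⟩ ⟨y⟩ e
    have e' : BE M _ _ := Quotient.exact e
    apply Quotient.sound
    simp only [← List.append_assoc] at e'
    exact e'.cancel_right
  · rintro ⟨n, a, ha⟩
    obtain ⟨a', h1, h2⟩ := h.reverse.move ha.reverse
    obtain ⟨u, hu⟩ := h.reverse.red_dv (p := [s]) (by simpa [Ov] using hs)
      (by simp [CoxeterSystem.IsReduced])
    have h3 := h2.reverse
    have h4 := hu.reverse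
    simp only [List.reverse_append, List.reverse_reverse, List.reverse_cons, List.reverse_nil,
      List.nil_append] at h3 h4
    refine ⟨Quotient.mk _ (n + 1, ⟨a'.reverse ++ u.reverse,
      ov_append.2 ⟨h1.reverse, (ov_append.1 (h.1.be h4)).1⟩⟩), Quotient.sound ?_⟩
    change BE M (wpow δ n ++ (a'.reverse ++ u.reverse ++ [s])) (wpow δ (n + 1) ++ a)
    rw [wpow_add, List.append_assoc, List.append_assoc]
    refine (BE.refl _).append ?_
    simp only [wpow, List.append_nil]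
    exact ((BE.refl _).append h4).trans h3.symm

theorem Sph.be_of_pos_eq {T : Set B} (h : Sph M T) {a b : List B} (ha : Ov T a) (hb : Ov T b)
    (e : pos M a = pos M b) : BE M a b := by
  obtain ⟨δ, hδ⟩ := h.exists_del
  let φ : B → Equiv.Perm (Quotient (frSetoid M T δ)) := fun s =>
    (Equiv.ofBijective _ (frMul_bij hδ s))⁻¹
  have act : ∀ (l : List B) (hl : Ov T l) (x : ℕ × {l // Ov T l}),
      ((l.map φ).prod)⁻¹ (Quotient.mk _ x) =
        Quotient.mk _ (x.1, ⟨x.2.1 ++ l, ov_append.2 ⟨x.2.2, hl⟩⟩) := by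
    intro l
    induction l with
    | nil => intro _ x; simp
    | cons s l ih =>
      intro hl x
      rw [List.map_cons, List.prod_cons, mul_inv_rev, Equiv.Perm.mul_apply]
      have : (φ s)⁻¹ (Quotient.mk _ x) = Quotient.mk _ (x.1, ⟨x.2.1 ++ [s],
          ov_append.2 ⟨x.2.2, by simpa [Ov] using (ov_cons.1 hl).1⟩⟩) := by
        simp only [φ, inv_inv, Equiv.ofBijective_apply, frMul, dif_pos (ov_cons.1 hl).1]
        rfl
      rw [this, ih (ov_cons.1 hl).2]
      simp
  have hφ : BrOn M T φ := by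
    intro i hi j hj
    apply inv_injective
    ext1 x
    obtain ⟨x⟩ := x
    have o1 : ∀ {x y : B} n, x ∈ T → y ∈ T → Ov T (alt x y n) := by
      intro x y n hx hy c hc
      rcases mem_alt hc with rfl | rfl <;> assumption
    exact (act _ (o1 _ hi hj) x).trans ((Quotient.sound ((BE.refl _).append
      ((BE.refl _).append (BE.braid i j)))).trans (act _ (o1 _ hj hi) x).symm)
  have h1 := congrArg (rext hφ) e
  rw [rext_pos hφ ha, rext_pos hφ hb] at h1
  have h2 := act a ha (0, ⟨[], Ov.nil⟩)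
  rw [h1, act b hb] at h2
  exact (Quotient.exact h2).symm

theorem Sph.exists_frac {T : Set B} (h : Sph M T) {g : Artin M} (hg : g ∈ apar M T) :
    ∃ a b, Ov T a ∧ Ov T b ∧ g = pos M a * (pos M b)⁻¹ := by
  refine apar_induction (P := fun g => ∃ a b, Ov T a ∧ Ov T b ∧ g = pos M a * (pos M b)⁻¹) hg
    ⟨[], [], Ov.nil, Ov.nil, by simp⟩ ?_ ?_
  · rintro g - i hi ⟨a, b, h1, h2, rfl⟩
    obtain ⟨c, d, h3, h4, h5⟩ := h.common (a := b) (b := [i]) h2 (by simpa [Ov] using hi)
    have := h5.pos_eq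
    rw [pos_append, pos_append, pos_singleton] at this
    refine ⟨a ++ c, d, ov_append.2 ⟨h1, h3⟩, h4, ?_⟩
    rw [pos_append, eq_mul_inv_iff_mul_eq, mul_assoc, ← this]; group
  · rintro g - i hi ⟨a, b, h1, h2, rfl⟩
    exact ⟨a, i :: b, h1, ov_cons.2 ⟨hi, h2⟩, by rw [pos_cons]; group⟩

theorem Sph.exists_frac_left {T : Set B} (h : Sph M T) {g : Artin M} (hg : g ∈ apar M T) :
    ∃ a b, Ov T a ∧ Ov T b ∧ g = (pos M a)⁻¹ * pos M b := by
  obtain ⟨a, b, h1, h2, rfl⟩ := h.exists_frac hg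
  obtain ⟨c, d, h3, h4, h5⟩ := h.common_left h1 h2
  have := h5.pos_eq
  rw [pos_append, pos_append] at this
  refine ⟨c, d, h3, h4, ?_⟩
  rw [eq_inv_mul_iff_mul_eq, ← mul_assoc, this]; group

/-- the left divisibility order -/
def Le (M : CoxeterMatrix B) (U : Set B) (x y : Artin M) : Prop := ∃ l, Ov U l ∧ y = x * pos M l

theorem Le.refl {U : Set B} (x : Artin M) : Le M U x x := ⟨[], Ov.nil, by simp⟩

theorem Le.trans {U : Set B} {x y z : Artin M} (h : Le M U x y) (h' : Le M U y z) : Le M U x z := by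
  obtain ⟨a, h1, rfl⟩ := h
  obtain ⟨b, h2, rfl⟩ := h'
  exact ⟨a ++ b, ov_append.2 ⟨h1, h2⟩, by rw [pos_append, mul_assoc]⟩

theorem Le.mem {U : Set B} {x y : Artin M} (h : Le M U x y) : x⁻¹ * y ∈ apar M U := by
  obtain ⟨a, h1, rfl⟩ := h
  simpa using pos_mem_apar h1

theorem le_pos {U : Set B} (x : Artin M) {l : List B} (h : Ov U l) : Le M U x (x * pos M l) :=
  ⟨l, h, rfl⟩

theorem Sph.le_iff {U : Set B} (h : Sph M U) {x : Artin M} {a b : List B} (ha : Ov U a)
    (hb : Ov U b) : Le M U (x * pos M a) (x * pos M b) ↔ Dv M a b := by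
  constructor
  · rintro ⟨c, h1, h2⟩
    rw [mul_assoc, mul_right_inj, ← pos_append] at h2
    exact ⟨c, h.be_of_pos_eq (ov_append.2 ⟨ha, h1⟩) hb h2.symm⟩
  · rintro ⟨c, hc⟩
    exact ⟨c, (ov_append.1 (hb.be hc)).2, by rw [mul_assoc, ← pos_append, hc.pos_eq]⟩

theorem Sph.exists_lower {U P : Set B} (h : Sph M P) (hP : P ⊆ U) {x y : Artin M}
    (hxy : x⁻¹ * y ∈ apar M P) :
    ∃ c a b, Ov P a ∧ Ov P b ∧ x = c * pos M a ∧ y = c * pos M b := by
  obtain ⟨a, b, h1, h2, e⟩ := h.exists_frac_left hxy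
  have _ := hP
  exact ⟨x * (pos M a)⁻¹, a, b, h1, h2, by simp, by rw [mul_assoc, ← e]; simp⟩

theorem Sph.exists_upper {P : Set B} (h : Sph M P) {x y : Artin M}
    (hxy : x⁻¹ * y ∈ apar M P) : ∃ a b, Ov P a ∧ Ov P b ∧ x * pos M a = y * pos M b := by
  obtain ⟨a, b, h1, h2, e⟩ := h.exists_frac hxy
  refine ⟨a, b, h1, h2, ?_⟩
  rw [eq_mul_inv_iff_mul_eq] at e
  rw [← e]; group

theorem Sph.exists_join {U : Set B} (h : Sph M U) {x y : Artin M} (hxy : x⁻¹ * y ∈ apar M U) :
    ∃ z, Le M U x z ∧ Le M U y z ∧ ∀ t, Le M U x t → Le M U y t → Le M U z t := by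
  obtain ⟨c, a, b, h1, h2, rfl, rfl⟩ := h.exists_lower subset_rfl hxy
  obtain ⟨a', b', -, -, h5⟩ := h.common h1 h2
  obtain ⟨l, l0, l1, l2, l3⟩ := exists_lcm h1 h2 (Dv.append a a') ⟨b', h5.symm⟩
  refine ⟨c * pos M l, (h.le_iff h1 l0).2 l1, (h.le_iff h2 l0).2 l2, ?_⟩
  rintro t ⟨d, d1, rfl⟩ ht
  rw [mul_assoc, ← pos_append] at ht ⊢
  have o := ov_append.2 ⟨h1, d1⟩
  exact (h.le_iff l0 o).2 (l3 _ (Dv.append _ _) ((h.le_iff h2 o).1 ht))

/-- convexity of standard cosets -/
theorem Sph.convex {U Q : Set B} (h : Sph M U) (hQ : Q ⊆ U) {x z : Artin M} {q : List B}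
    (hq : Ov Q q) (h1 : Le M U x z) (h2 : Le M U z (x * pos M q)) :
    ∃ d, Ov Q d ∧ z = x * pos M d := by
  obtain ⟨d, d1, rfl⟩ := h1
  exact ⟨d, hq.of_dv ((h.le_iff d1 (hq.mono hQ)).1 h2), rfl⟩


end Pool.Agent.H51
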