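import Pool.Agent.Lib.MP_a1ec0a_al.H.Cox3

/-! The retraction of an Artin group onto a standard parabolic subgroup. -/

set_option linter.unusedSectionVars false

namespace Pool.Agent.H51

open CoxeterSystem

variable {B : Type*} (M : CoxeterMatrix B)

/-- generator of the Artin group -/
def gen (s : B) : Artin M := PresentedGroup.of s

/-- positive word -/
def pos (l : List B) : Artin M := (l.map (gen M)).prod

/-- standard parabolic subgroup of the Artin group -/
def apar (T : Set B) : Subgroup (Artin M) := Subgroup.closure (gen M '' T)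

/-- braid relations on a subset -/
def BrOn {N : Type*} [Monoid N] (T : Set B) (φ : B → N) : Prop :=
  ∀ i ∈ T, ∀ j ∈ T, ((alt i j (M i j)).map φ).prod = ((alt j i (M i j)).map φ).prod

variable {M}

@[simp] theorem pos_nil : pos M [] = 1 := rfl
theorem pos_cons (s : B) (l : List B) : pos M (s :: l) = gen M s * pos M l := by simp [pos]
@[simp] theorem pos_singleton (s : B) : pos M [s] = gen M s := by simp [pos]
theorem pos_append (l l' : List B) : pos M (l ++ l') = pos M l * pos M l' := by simp [pos]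

theorem brOn_gen : BrOn M Set.univ (gen M) := by
  intro i _ j _
  by_cases hij : i = j
  · subst hij; rfl
  by_cases h0 : M i j = 0
  · simp [h0, alt]
  have := PresentedGroup.one_of_mem (rels := artinRel M) ⟨i, j, hij, h0, rfl⟩
  rw [map_mul, map_inv, mul_inv_eq_one, map_list_prod, map_list_prod, List.map_map,
    List.map_map] at this
  exact this

theorem BE.pos_eq {a b : List B} (h : BE M a b) : pos M a = pos M b :=
  h.prod_eq (T := Set.univ) brOn_gen (fun _ _ => trivial)

/-- universal property -/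
def alift {H : Type*} [Group H] (φ : B → H) (h : BrOn M Set.univ φ) : Artin M →* H :=
  PresentedGroup.toGroup (f := φ) (by
    rintro r ⟨s, t, -, -, rfl⟩
    rw [map_mul, map_inv, mul_inv_eq_one, map_list_prod, map_list_prod, List.map_map,
      List.map_map]
    have e : (⇑(FreeGroup.lift φ) ∘ FreeGroup.of) = φ := by funext x; simp
    rw [e]; exact h s trivial t trivial)

@[simp] theorem alift_gen {H : Type*} [Group H] (φ : B → H) (h : BrOn M Set.univ φ) (s : B) :
    alift φ h (gen M s) = φ s := PresentedGroup.toGroup.of _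

theorem map_pos {H : Type*} [Group H] (f : Artin M →* H) (l : List B) :
    f (pos M l) = (l.map fun s => f (gen M s)).prod := by
  simp [pos, map_list_prod, List.map_map, Function.comp_def]

theorem gen_mem_apar {T : Set B} {i : B} (hi : i ∈ T) : gen M i ∈ apar M T :=
  Subgroup.subset_closure ⟨i, hi, rfl⟩

theorem pos_mem_apar {T : Set B} {l : List B} (hl : ∀ c ∈ l, c ∈ T) : pos M l ∈ apar M T := by
  induction l with
  | nil => simp
  | cons a l ih =>
    rw [pos_cons]
    exact mul_mem (gen_mem_apar (hl a (by simp))) (ih fun c hc => hl c (by simp [hc]))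

theorem apar_mono {T T' : Set B} (h : T ⊆ T') : apar M T ≤ apar M T' :=
  Subgroup.closure_mono (Set.image_mono h)

theorem apar_univ : apar M Set.univ = ⊤ := by
  rw [apar, Set.image_univ]; exact PresentedGroup.closure_range_of _

theorem apar_induction {T : Set B} {P : Artin M → Prop} {g : Artin M} (hg : g ∈ apar M T)
    (h1 : P 1) (hm : ∀ g ∈ apar M T, ∀ i ∈ T, P g → P (g * gen M i))
    (hi : ∀ g ∈ apar M T, ∀ i ∈ T, P g → P (g * (gen M i)⁻¹)) : P g := by
  induction hg using Subgroup.closure_induction_right with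
  | one => exact h1
  | mul_right x hx y hy ih => obtain ⟨i, hi, rfl⟩ := hy; exact hm x hx i hi ih
  | mul_inv_cancel x hx y hy ih => obtain ⟨i, hi', rfl⟩ := hy; exact hi x hx i hi' ih

/-- exponent sum -/
noncomputable def expo (M : CoxeterMatrix B) : Artin M →* Multiplicative ℤ :=
  alift (fun _ => Multiplicative.ofAdd 1) (by intro i _ j _; simp [List.map_const'])

theorem expo_pos (l : List B) : expo M (pos M l) = Multiplicative.ofAdd (l.length : ℤ) := by
  induction l with
  | nil => simp
  | cons a l ih =>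
    rw [pos_cons, map_mul, ih]
    simp [expo, ← ofAdd_add, add_comm]

theorem length_eq_of_pos_eq {l l' : List B} (h : pos M l = pos M l') : l.length = l'.length := by
  have := congrArg (expo M) h
  rw [expo_pos, expo_pos] at this
  exact_mod_cast Multiplicative.ofAdd.injective this

variable [Fintype B] [DecidableEq B]

/-- the Coxeter system of `M` -/
def cx (M : CoxeterMatrix B) : CoxeterSystem M M.Group := M.toCoxeterSystem

/-- left minimal elements -/
def LMin (M : CoxeterMatrix B) (T : Set B) (u : M.Group) : Prop :=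
  ∀ t ∈ T, ¬ (cx M).IsLeftDescent u t

/-- reading `s` in state `u` emits `t` -/
def Em (M : CoxeterMatrix B) (T : Set B) (u : M.Group) (s t : B) : Prop :=
  t ∈ T ∧ u * (cx M).simple s = (cx M).simple t * u

theorem Em.unique {T : Set B} {u : M.Group} {s t t' : B} (h : Em M T u s t) (h' : Em M T u s t') :
    t = t' := simple_inj (cx M) (mul_right_cancel (h.2.symm.trans h'.2))

theorem LMin.step {T : Set B} {u : M.Group} (hu : LMin M T u) {s : B} (h : ¬ ∃ t, Em M T u s t) :
    LMin M T (u * (cx M).simple s) :=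
  fun t ht hd => h ⟨t, ht, deodhar (cx M) (hu t ht) hd⟩

theorem not_em {T : Set B} {u : M.Group} (s : B)
    (h : ¬ ∃ t, Em M T u s t) : ¬ ∃ t, Em M T (u * (cx M).simple s) s t := by
  rintro ⟨t, ht, h2⟩
  apply h
  refine ⟨t, ht, ?_⟩
  rw [← mul_assoc] at h2
  exact mul_right_cancel h2

section
variable {H : Type*} [Group H] (M) (T : Set B) (φ : B → H)

/-- states -/
abbrev RSt (H : Type*) := H × {u : M.Group // LMin M T u}

open Classical in
/-- one step -/
noncomputable def rstep (s : B) (x : RSt M T H) : RSt M T H :=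
  if h : ∃ t, Em M T x.2.1 s t then (x.1 * φ h.choose, x.2)
  else (x.1, ⟨x.2.1 * (cx M).simple s, x.2.2.step h⟩)

variable {M T φ}

theorem rstep_em {s t : B} {x : RSt M T H} (h : Em M T x.2.1 s t) :
    rstep M T φ s x = (x.1 * φ t, x.2) := by
  have h' : ∃ t, Em M T x.2.1 s t := ⟨t, h⟩
  rw [rstep, dif_pos h', h'.choose_spec.unique h]

theorem rstep_not {s : B} {x : RSt M T H} (h : ¬ ∃ t, Em M T x.2.1 s t) :
    rstep M T φ s x = (x.1, ⟨x.2.1 * (cx M).simple s, x.2.2.step h⟩) := by
  rw [rstep, dif_neg h]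

theorem rstep_inv (s : B) (x : RSt M T H) :
    rstep M T (fun t => (φ t)⁻¹) s (rstep M T φ s x) = x := by
  by_cases h : ∃ t, Em M T x.2.1 s t
  · obtain ⟨t, ht⟩ := h
    rw [rstep_em ht, rstep_em (x := (x.1 * φ t, x.2)) (t := t) ht]; simp
  · rw [rstep_not h, rstep_not (x := (x.1, ⟨x.2.1 * (cx M).simple s, x.2.2.step h⟩)) (not_em s h)]
    simp

variable (M T φ) in
/-- the step as a permutation -/
noncomputable def rperm (s : B) : Equiv.Perm (RSt M T H) where
  toFun := rstep M T φ s
  invFun := rstep M T (fun t => (φ t)⁻¹) s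
  left_inv := rstep_inv s
  right_inv x := by simpa using rstep_inv (φ := fun t => (φ t)⁻¹) s x

theorem em_not_desc {u u' : M.Group} (hu : LMin M T u) (hu' : LMin M T u') {l τ : List B} {s t : B}
    (hτ : ∀ c ∈ τ, c ∈ T) (e : u * (cx M).wordProd l = (cx M).wordProd τ * u')
    (hs : ¬ (cx M).IsRightDescent ((cx M).wordProd l) s) (ht : Em M T u' s t) :
    ¬ (cx M).IsRightDescent ((cx M).wordProd τ) t := by
  intro hd
  have h1 : ¬ (cx M).IsRightDescent u' s := by
    rw [(cx M).not_isRightDescent_iff, ht.2]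
    exact (cx M).not_isLeftDescent_iff.1 (hu' t ht.1)
  have h2 := rho_nonneg (cx M) h1
  have h3 : rho (cx M) u' (ee s) = bf M t (rho (cx M) u' (ee s)) • ee t := by
    have := congrArg (fun w => rho (cx M) w (ee s)) ht.2
    simp only [map_mul, Module.End.mul_apply, rho_simple, sref_ee_self, map_neg] at this
    rw [sref_apply] at this
    linear_combination (norm := module) (-1 / 2 : ℝ) • this
  have h4 : 0 ≤ bf M t (rho (cx M) u' (ee s)) := by
    have := h2 t
    rw [h3] at this
    simpa [ee] using this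
  have h5 := rho_nonneg (cx M) hs
  have h6 : rho (cx M) ((cx M).wordProd l) (ee s) = bf M t (rho (cx M) u' (ee s)) •
      rho (cx M) u⁻¹ (rho (cx M) ((cx M).wordProd τ) (ee t)) := by
    rw [← map_smul, ← map_smul, ← h3, ← Module.End.mul_apply, ← Module.End.mul_apply, ← map_mul,
      ← map_mul, mul_assoc, ← e, inv_mul_cancel_left]
  have h7 : 0 ≤ rho (cx M) u⁻¹ (-rho (cx M) ((cx M).wordProd τ) (ee t)) := by
    refine rho_nonneg_supp (cx M) (T := T) (fun c hc => ?_)
      (neg_nonneg.2 (rho_nonpos (cx M) hd)) fun j hj => ?_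
    · rw [(cx M).isRightDescent_inv_iff]; exact hu c hc
    · simp [root_supp (cx M) (wordProd_mem_par (cx M) hτ) ht.1 j hj]
  rw [map_neg, neg_nonneg] at h7
  exact rho_ee_ne (cx M) _ s (le_antisymm (h6 ▸ smul_nonpos_of_nonneg_of_nonpos h4 h7) h5)

theorem rfold (x : RSt M T H) (l : List B) :
    ∃ τ : List B, (∀ c ∈ τ, c ∈ T) ∧ τ.length ≤ l.length ∧
      (l.foldl (fun y s => rstep M T φ s y) x).1 = x.1 * (τ.map φ).prod ∧
      x.2.1 * (cx M).wordProd l =
        (cx M).wordProd τ * (l.foldl (fun y s => rstep M T φ s y) x).2.1 ∧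
      ((cx M).IsReduced l → (cx M).IsReduced τ) ∧
      (x.2.1 = 1 → τ.length = l.length →
        τ = l ∧ (l.foldl (fun y s => rstep M T φ s y) x).2.1 = 1) := by
  induction l using List.reverseRecOn with
  | nil => exact ⟨[], by simp, by simp, by simp, by simp, by simp, by simp⟩
  | append_singleton l s ih =>
    obtain ⟨τ, h1, h2, h3, h4, h5, h6⟩ := ih
    rw [List.foldl_append, List.foldl_cons, List.foldl_nil]
    set y := l.foldl (fun y s => rstep M T φ s y) x
    by_cases h : ∃ t, Em M T y.2.1 s t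
    · obtain ⟨t, ht⟩ := h
      rw [rstep_em ht]
      refine ⟨τ ++ [t], ?_, by simp [h2], by simp [h3, mul_assoc], ?_, ?_, ?_⟩
      · intro c hc
        rcases List.mem_append.1 hc with hc | hc
        · exact h1 c hc
        · rw [List.mem_singleton.1 hc]; exact ht.1
      · simp only [wordProd_append, wordProd_singleton]
        rw [← mul_assoc, h4, mul_assoc, ht.2, mul_assoc]
      · intro hr
        have r1 : (cx M).IsReduced l := by simpa using hr.take l.length
        have r2 : ¬ (cx M).IsRightDescent ((cx M).wordProd l) s := by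
          rw [(cx M).not_isRightDescent_iff, r1.eq]
          simpa [wordProd_append] using hr.eq
        have := (cx M).not_isRightDescent_iff.1 (em_not_desc x.2.2 y.2.2 h1 h4 r2 ht)
        exact red_append (cx M) (by simp [this, (h5 r1).eq])
      · intro hx hl
        obtain ⟨e1, e2⟩ := h6 hx (by simpa using hl)
        have := ht.2
        rw [e2, one_mul, mul_one] at this
        rw [e1, simple_inj (cx M) this]
        exact ⟨rfl, e2⟩
    · rw [rstep_not h]
      refine ⟨τ, h1, by simp; omega, h3, ?_, ?_, ?_⟩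
      · simp only [wordProd_append, wordProd_singleton]
        rw [← mul_assoc, h4, mul_assoc]
      · intro hr
        exact h5 (by simpa using hr.take l.length)
      · intro _ hl
        simp at hl; omega

theorem rperm_prod (l : List B) (x : RSt M T H) :
    ((l.map fun s => (rperm M T φ s)⁻¹).prod)⁻¹ x = l.foldl (fun y s => rstep M T φ s y) x := by
  induction l generalizing x with
  | nil => simp
  | cons a l ih =>
    rw [List.map_cons, List.prod_cons, mul_inv_rev, inv_inv, Equiv.Perm.mul_apply, ih]; rfl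

theorem brOn_rperm (hφ : BrOn M T φ) : BrOn M Set.univ (fun s => (rperm M T φ s)⁻¹) := by
  intro i _ j _
  by_cases hij : i = j
  · subst hij; rfl
  apply inv_injective
  ext1 x
  rw [rperm_prod, rperm_prod]
  obtain ⟨τ, h1, -, h3, h4, h5, -⟩ := rfold (φ := φ) x (alt i j (M i j))
  obtain ⟨τ', h1', -, h3', h4', h5', -⟩ := rfold (φ := φ) x (alt j i (M i j))
  have r := h5 (red_alt (cx M) hij (Or.inr le_rfl))
  have r' := h5' (red_alt (cx M) (Ne.symm hij) (Or.inr (M.symmetric i j).le))
  rw [wordProd_braid, h4'] at h4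
  set y := (alt i j (M i j)).foldl (fun y s => rstep M T φ s y) x
  set y' := (alt j i (M i j)).foldl (fun y s => rstep M T φ s y) x
  have e1 : y'.2.1 = (((cx M).wordProd τ')⁻¹ * (cx M).wordProd τ) * y.2.1 := by
    rw [mul_assoc, ← h4]; simp
  have e2 := min_unique_left (cx M) y.2.2 y'.2.2 (mul_mem (inv_mem (wordProd_mem_par _ h1'))
    (wordProd_mem_par _ h1)) e1
  rw [e2, one_mul] at e1
  rw [inv_mul_eq_one] at e2
  have e3 := (matsumoto (cx M) r' r e2).prod_eq hφ h1'
  exact Prod.ext (by rw [h3, h3', e3]) (Subtype.ext e1.symm)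

/-- the right action on states -/
noncomputable def ract (hφ : BrOn M T φ) (x : RSt M T H) (g : Artin M) : RSt M T H :=
  (alift _ (brOn_rperm hφ) g)⁻¹ x

variable (hφ : BrOn M T φ)

@[simp] theorem ract_one (x : RSt M T H) : ract hφ x 1 = x := by simp [ract]

theorem ract_mul (x : RSt M T H) (g g' : Artin M) :
    ract hφ x (g * g') = ract hφ (ract hφ x g) g' := by simp [ract]

theorem ract_gen (x : RSt M T H) (s : B) : ract hφ x (gen M s) = rstep M T φ s x := by
  simp [ract]; rfl

theorem ract_gen_inv (x : RSt M T H) (s : B) :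
    ract hφ x (gen M s)⁻¹ = rstep M T (fun t => (φ t)⁻¹) s x := by
  simp [ract]; rfl

theorem ract_pos (x : RSt M T H) (l : List B) :
    ract hφ x (pos M l) = l.foldl (fun y s => rstep M T φ s y) x := by
  induction l generalizing x with
  | nil => simp
  | cons a l ih => rw [pos_cons, ract_mul, ract_gen, ih]; rfl

theorem rstep_left (ψ : B → H) (h : H) (s : B) (x : RSt M T H) :
    rstep M T ψ s (h * x.1, x.2) = (h * (rstep M T ψ s x).1, (rstep M T ψ s x).2) := by
  by_cases h' : ∃ t, Em M T x.2.1 s t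
  · obtain ⟨t, ht⟩ := h'
    rw [rstep_em ht, rstep_em (x := (h * x.1, x.2)) (t := t) ht, mul_assoc]
  · rw [rstep_not h', rstep_not (x := (h * x.1, x.2)) h']

theorem ract_left (h : H) (x : RSt M T H) (g : Artin M) :
    ract hφ (h * x.1, x.2) g = (h * (ract hφ x g).1, (ract hφ x g).2) := by
  refine apar_induction (T := Set.univ) (g := g)
    (P := fun g => ract hφ (h * x.1, x.2) g = (h * (ract hφ x g).1, (ract hφ x g).2))
    (by simp [apar_univ]) (by simp) ?_ ?_
  · intro g _ i _ ih
    rw [ract_mul, ract_mul, ih, ract_gen, ract_gen, rstep_left]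
  · intro g _ i _ ih
    rw [ract_mul, ract_mul, ih, ract_gen_inv, ract_gen_inv, rstep_left]

/-- initial state -/
def rinit : RSt M T H := (1, ⟨1, fun t _ => (cx M).not_isLeftDescent_one t⟩)

/-- the extension of `φ` -/
noncomputable def rext (g : Artin M) : H := (ract hφ rinit g).1

theorem em_one {t : B} (ht : t ∈ T) : Em M T 1 t t := ⟨ht, by simp⟩

theorem ract_par {g : Artin M} (hg : g ∈ apar M T) :
    ract hφ rinit g = (rext hφ g, (rinit : RSt M T H).2) := by
  refine apar_induction (P := fun g => ract hφ rinit g = (rext hφ g, (rinit : RSt M T H).2)) hg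
    (by simp [rext]) ?_ ?_
  · intro g _ i hi ih
    rw [rext, ract_mul, ih, ract_gen, rstep_em (t := i) (em_one hi)]
  · intro g _ i hi ih
    rw [rext, ract_mul, ih, ract_gen_inv, rstep_em (t := i) (em_one hi)]

theorem rext_mul {g : Artin M} (hg : g ∈ apar M T) (g' : Artin M) :
    rext hφ (g * g') = rext hφ g * rext hφ g' := by
  have := ract_left hφ (rext hφ g) rinit g'
  rw [show (rinit : RSt M T H).1 = 1 from rfl, mul_one] at this
  rw [rext, ract_mul, ract_par hφ hg, this]; rfl

@[simp] theorem rext_one : rext hφ 1 = 1 := by simp [rext, rinit]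

theorem rext_gen {t : B} (ht : t ∈ T) : rext hφ (gen M t) = φ t := by
  rw [rext, ract_gen, rstep_em (t := t) (em_one ht)]; simp [rinit]

/-- universal property of a standard parabolic subgroup -/
noncomputable def parLift : apar M T →* H where
  toFun g := rext hφ g
  map_one' := rext_one hφ
  map_mul' g g' := rext_mul hφ g.2 g'

theorem rext_inv {g : Artin M} (hg : g ∈ apar M T) : rext hφ g⁻¹ = (rext hφ g)⁻¹ := by
  rw [eq_inv_iff_mul_eq_one, ← rext_mul hφ (inv_mem hg)]; simp

theorem rext_pos {l : List B} (hl : ∀ c ∈ l, c ∈ T) : rext hφ (pos M l) = (l.map φ).prod := by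
  induction l with
  | nil => simp
  | cons a l ih =>
    rw [pos_cons, rext_mul hφ (gen_mem_apar (hl a (by simp))), rext_gen hφ (hl a (by simp)),
      ih fun c hc => hl c (by simp [hc])]
    simp

/-- `rext` agrees on `apar T'` with a homomorphism that agrees with `φ` on `T'` -/
theorem rext_eq_hom {T' : Set B} (hT : T' ⊆ T) (f : apar M T' →* H)
    (hf : ∀ t (ht : t ∈ T'), f ⟨gen M t, gen_mem_apar ht⟩ = φ t) (g : apar M T') :
    rext hφ g = f g := by
  obtain ⟨g, hg⟩ := g
  refine apar_induction (P := fun g => ∀ hg : g ∈ apar M T', rext hφ g = f ⟨g, hg⟩) hg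
    (fun _ => by rw [rext_one]; exact (map_one f).symm) ?_ ?_ hg
  · intro g hg i hi ih _
    rw [rext_mul hφ (apar_mono hT hg), ih hg, rext_gen hφ (hT hi), ← hf i hi, ← map_mul]; rfl
  · intro g hg i hi ih _
    rw [rext_mul hφ (apar_mono hT hg), ih hg, rext_inv hφ (gen_mem_apar (hT hi)),
      rext_gen hφ (hT hi), ← hf i hi, ← map_inv, ← map_mul]; rfl

end

theorem brOn_gen' (T : Set B) : BrOn M T (gen M) := fun i _ j _ => brOn_gen i trivial j trivial

/-- the retraction onto `apar T` -/
noncomputable def retr (T : Set B) (g : Artin M) : Artin M := rext (brOn_gen' T) g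

theorem retr_of_mem {T : Set B} {g : Artin M} (hg : g ∈ apar M T) : retr T g = g :=
  rext_eq_hom (brOn_gen' T) subset_rfl (apar M T).subtype (fun _ _ => rfl) ⟨g, hg⟩

theorem retr_mul {T : Set B} {g : Artin M} (hg : g ∈ apar M T) (g' : Artin M) :
    retr T (g * g') = g * retr T g' := by
  rw [retr, rext_mul _ hg]; congr 1; exact retr_of_mem hg

theorem retr_mem {T Q : Set B} {g : Artin M} (hg : g ∈ apar M Q) :
    retr T g ∈ apar M (T ∩ Q) := by
  have key : ∀ (ψ : B → Artin M) (_ : ∀ t ∈ T ∩ Q, ψ t ∈ apar M (T ∩ Q)) (x : RSt M T (Artin M))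
      (s : B), s ∈ Q → x.1 ∈ apar M (T ∩ Q) ∧ x.2.1 ∈ par (cx M) Q →
      (rstep M T ψ s x).1 ∈ apar M (T ∩ Q) ∧ (rstep M T ψ s x).2.1 ∈ par (cx M) Q := by
    rintro ψ hψ x s hs ⟨h1, h2⟩
    by_cases h : ∃ t, Em M T x.2.1 s t
    · obtain ⟨t, ht⟩ := h
      rw [rstep_em ht]
      refine ⟨mul_mem h1 (hψ t ⟨ht.1, mem_of_simple_mem_par (cx M) ?_⟩), h2⟩
      have : (cx M).simple t = x.2.1 * (cx M).simple s * x.2.1⁻¹ := by rw [ht.2]; simp
      rw [this]
      exact mul_mem (mul_mem h2 (simple_mem_par _ hs)) (inv_mem h2)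
    · rw [rstep_not h]
      exact ⟨h1, mul_mem h2 (simple_mem_par _ hs)⟩
  refine (apar_induction (P := fun g => (ract (brOn_gen' T) rinit g).1 ∈ apar M (T ∩ Q) ∧
    (ract (brOn_gen' T) rinit g).2.1 ∈ par (cx M) Q) hg ?_ ?_ ?_).1
  · simp [rinit]
  · intro g _ i hi ih
    rw [ract_mul, ract_gen]
    exact key _ (fun t ht => gen_mem_apar ht) _ _ hi ih
  · intro g _ i hi ih
    rw [ract_mul, ract_gen_inv]
    exact key _ (fun t ht => inv_mem (gen_mem_apar ht)) _ _ hi ih

theorem retr_mem' (T : Set B) (g : Artin M) : retr T g ∈ apar M T := by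
  simpa using retr_mem (T := T) (Q := Set.univ) (g := g) (by simp [apar_univ])

theorem apar_inf (P Q : Set B) : apar M P ⊓ apar M Q = apar M (P ∩ Q) := by
  refine le_antisymm (fun g hg => ?_)
    (le_inf (apar_mono Set.inter_subset_left) (apar_mono Set.inter_subset_right))
  rw [← retr_of_mem hg.1]; exact retr_mem hg.2

theorem mem_apar_inter {P Q : Set B} {g : Artin M} (h1 : g ∈ apar M P) (h2 : g ∈ apar M Q) :
    g ∈ apar M (P ∩ Q) := by rw [← apar_inf]; exact ⟨h1, h2⟩

theorem mem_mul_iff_retr {P Q : Set B} {g : Artin M} :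
    (∃ p ∈ apar M P, p⁻¹ * g ∈ apar M Q) ↔ (retr P g)⁻¹ * g ∈ apar M Q := by
  refine ⟨?_, fun h => ⟨_, retr_mem' P g, h⟩⟩
  rintro ⟨p, hp, hq⟩
  have e : g = p * (p⁻¹ * g) := by simp
  have : retr P g = p * retr P (p⁻¹ * g) := by rw [← retr_mul hp, ← e]
  rw [this, mul_inv_rev, mul_assoc]
  exact mul_mem (inv_mem (apar_mono Set.inter_subset_right (retr_mem hq))) hq

theorem mem_of_pos_mem {T : Set B} {l : List B} (h : pos M l ∈ apar M T) : ∀ c ∈ l, c ∈ T := by
  obtain ⟨τ, h1, -, h3, -, -, h6⟩ := rfold (φ := gen M) (rinit : RSt M T (Artin M)) l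
  have e : pos M l = pos M τ := by
    rw [← retr_of_mem h, retr, rext, ract_pos, h3]; simp [rinit, pos]
  rw [← (h6 rfl (length_eq_of_pos_eq e).symm).1]
  exact h1

theorem mem_of_gen_mem {T : Set B} {s : B} (h : gen M s ∈ apar M T) : s ∈ T :=
  mem_of_pos_mem (l := [s]) (by simpa using h) s (by simp)

end Pool.Agent.H51
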